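import Pool.Agent.R194.GC.Sys

set_option autoImplicit false
open Topology Filter Set

namespace Pool.Agent.R194.GC

noncomputable section

/-- a solution of `dX/dy = F(X, y)` connects `J × {α}` with `J' × {β}` (modulo `2π` in `x`) -/
def Conn (F : ℝ × ℝ → ℝ) (α : ℝ) (J : Set ℝ) (β : ℝ) (J' : Set ℝ) : Prop :=
  ∃ X : ℝ → ℝ, Sol F X ∧ X α ∈ J ∧ ∃ k : ℤ, X β + k * (2 * Real.pi) ∈ J'

lemma isOpen_conn {α β : ℝ} (hαβ : α ≤ β) {J J' : Set ℝ} (hJ' : IsOpen J') :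
    IsOpen {q : Sys × ℝ | 0 < q.2 ∧ Conn (Fs q.1.f q.1.g q.2) α J β J'} := by
  rw [isOpen_iff_mem_nhds]
  rintro ⟨s, e⟩ ⟨he, X, hX, hXα, k, hk⟩
  simp only at he hX
  obtain ⟨ρ, hρ, hball⟩ := Metric.isOpen_iff.1 hJ' _ hk
  obtain ⟨δ, hδ, hap⟩ := approx_small (s.dat.nice he) hX hαβ hρ
  have hev : ∀ᶠ q : Sys × ℝ in 𝓝 (s, e), ∀ z ∈ Icc (0:ℝ) (2 * Real.pi) ×ˢ Icc α β,
      |Fs q.1.f q.1.g q.2 z - Fs s.f s.g e z| < δ := by
    refine (isCompact_Icc.prod isCompact_Icc).eventually_forall_of_forall_eventually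
      fun z _ => ?_
    have c1 : Continuous (fun w : (Sys × ℝ) × (ℝ × ℝ) => (w.1.1, ((w.2.1, w.2.2, w.1.2) :
        ℝ × ℝ × ℝ))) := by fun_prop
    have cf := cont_f.comp c1
    have cg := cont_g.comp c1
    have hc : ContinuousAt (fun w : (Sys × ℝ) × (ℝ × ℝ) => Fs w.1.1.f w.1.1.g w.1.2 w.2)
        ((s, e), z) := by
      refine ContinuousAt.div cf.continuousAt ?_ (mul_pos he (s.g_pos _)).ne'
      exact (continuous_snd.comp continuous_fst).continuousAt.mul cg.continuousAt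
    have hc2 : ContinuousAt (fun w : (Sys × ℝ) × (ℝ × ℝ) => Fs s.f s.g e w.2) ((s, e), z) := by
      obtain ⟨K, hK⟩ := (s.dat.nice he).lip
      exact (hK.continuous.comp continuous_snd).continuousAt
    refine (hc.sub hc2).abs.eventually (gt_mem_nhds ?_)
    change |Fs s.f s.g e z - Fs s.f s.g e z| < δ
    rw [sub_self, abs_zero]
    exact hδ
  have hpos : ∀ᶠ q : Sys × ℝ in 𝓝 (s, e), 0 < q.2 :=
    continuous_snd.continuousAt.eventually (lt_mem_nhds he)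
  filter_upwards [hev, hpos] with q h1 h2
  obtain ⟨X', h3, h4⟩ := exists_sol (q.1.dat.nice h2) α (X α)
  refine ⟨h2, X', h4, by rw [h3]; exact hXα, k, hball ?_⟩
  have h5 := hap _ X' h4 h3.symm (fun x y hy => by
    revert x
    refine per_rep (c := 2 * Real.pi) (by positivity) (fun x => ?_) fun x hx => ?_
    · simp only [Fs, q.1.f_perx, q.1.g_perx, s.f_perx, s.g_perx]
    · exact (h1 (x, y) ⟨hx, hy⟩).le)
  rw [Metric.mem_ball, Real.dist_eq]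
  have e1 : X' β + k * (2 * Real.pi) - (X β + k * (2 * Real.pi)) = X' β - X β := by ring
  rw [e1]
  exact h5

/-- sign of a nonvanishing function -/
lemma sign_of_ne {h : ℝ → ℝ} (hc : Continuous h) (h0 : ∀ x, h x ≠ 0) :
    (∀ x, 0 < h x) ∨ (∀ x, h x < 0) := by
  by_contra hcon
  push Not at hcon
  obtain ⟨⟨a, ha⟩, ⟨b, hb⟩⟩ := hcon
  obtain ⟨c, hc⟩ := mem_range_of_exists_le_of_exists_ge hc ⟨a, ha⟩ ⟨b, hb⟩
  exact h0 c hc

lemma leg {f g : ℝ × ℝ × ℝ → ℝ} (hd : Dat f g) {χ : ℝ → ℝ} (hχ : SmP χ)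
    (hχ0 : ∀ y, 0 ≤ χ y) {α y₁ β : ℝ} (h1 : α < y₁) (h2 : y₁ < β) (hχ1 : 0 < χ y₁)
    (hf : ∀ x, f (x, y₁, 0) ≠ 0) {σ₀ : ℝ} (hσ : 0 < σ₀) :
    ∃ ε₀ > 0, ∀ e ∈ Ioo 0 ε₀, ∀ p q : ℝ, ∃ σ ∈ Icc (-σ₀) σ₀, ∃ X : ℝ → ℝ,
      Sol (Fs (fun p => f p + σ * χ p.2.1) g e) X ∧ X α = p ∧
      ∃ k : ℤ, X β + k * (2 * Real.pi) = q := by
  have hpi : 0 < 2 * Real.pi := by positivity
  have hlift : ContDiff ℝ 1 (fun p : ℝ × ℝ × ℝ => χ p.2.1) :=
    hχ.lift.of_le (by exact_mod_cast le_top)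
  have hdσ : ∀ σ : ℝ, Dat (fun p => f p + σ * χ p.2.1) g := fun σ =>
    { f1 := hd.f1.add (contDiff_const.mul hlift)
      g1 := hd.g1
      fx := fun x y e => by simp only [hd.fx]
      fy := fun x y e => by simp only [hd.fy, hχ.per]
      gx := hd.gx
      gy := hd.gy
      gpos := hd.gpos }
  have hdχ : Dat (fun p => χ p.2.1) g :=
    { f1 := hlift
      g1 := hd.g1
      fx := fun x y e => rfl
      fy := fun x y e => hχ.per y
      gx := hd.gx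
      gy := hd.gy
      gpos := hd.gpos }
  have hχc : Continuous χ := hχ.smooth.continuous
  -- two parameters whose end points differ by a full turn
  obtain ⟨ε₀, hε₀, σ₁, σ₂, hσ12, hσ1, hσ2, hturn⟩ : ∃ ε₀ > 0, ∃ σ₁ σ₂ : ℝ, σ₁ ≤ σ₂ ∧
      -σ₀ ≤ σ₁ ∧ σ₂ ≤ σ₀ ∧ ∀ e ∈ Ioo 0 ε₀, ∀ u v : ℝ → ℝ,
        Sol (Fs (fun p => f p + σ₂ * χ p.2.1) g e) u →
        Sol (Fs (fun p => f p + σ₁ * χ p.2.1) g e) v → u α = v α → v β + 2 * Real.pi ≤ u β := by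
    have hfc : Continuous (fun x => f (x, y₁, 0)) := hd.f1.continuous.comp (by fun_prop)
    have hz : (fun p : ℝ × ℝ × ℝ => f p + 0 * χ p.2.1) = f := by funext p; ring
    rcases sign_of_ne hfc hf with h | h
    · obtain ⟨ε₀, h3, h4⟩ := push_pos hd hχc hχ0 h1 h2 hχ1 h hσ
      refine ⟨ε₀, h3, 0, σ₀, hσ.le, by linarith, le_rfl, fun e he u v hu hv h0 => ?_⟩
      rw [hz] at hv
      exact h4 e he u v hu hv h0
    · obtain ⟨ε₀, h3, h4⟩ := push_neg hd hχc hχ0 h1 h2 hχ1 h hσ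
      refine ⟨ε₀, h3, -σ₀, 0, by linarith, le_rfl, by linarith, fun e he u v hu hv h0 => ?_⟩
      rw [hz] at hu
      exact h4 e he v u hv hu h0.symm
  refine ⟨ε₀, hε₀, fun e he p q => ?_⟩
  have he0 : 0 < e := he.1
  choose X hXα hX using fun σ : ℝ => exists_sol ((hdσ σ).nice he0) α p
  obtain ⟨C, hC⟩ := (hdχ.nice he0).bdd
  have hC0 : 0 ≤ C := (abs_nonneg _).trans (hC 0)
  have hcont : Continuous (fun σ => X σ β) := by
    rw [Metric.continuous_iff]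
    intro τ ρ hρ
    obtain ⟨δ, hδ, hap⟩ := approx_small ((hdσ τ).nice he0) (hX τ) (h1.le.trans h2.le) hρ
    refine ⟨δ / (C + 1), by positivity, fun σ hστ => ?_⟩
    rw [Real.dist_eq] at hστ ⊢
    refine hap _ _ (hX σ) (by rw [hXα, hXα]) fun x y _ => ?_
    have e1 : Fs (fun p => f p + σ * χ p.2.1) g e (x, y) -
        Fs (fun p => f p + τ * χ p.2.1) g e (x, y) = (σ - τ) * Fs (fun p => χ p.2.1) g e (x, y) := by
      simp only [Fs]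
      ring
    rw [e1, abs_mul]
    have h5 := hC (x, y)
    rw [lt_div_iff₀ (by positivity)] at hστ
    have h6 : |σ - τ| * |Fs (fun p => χ p.2.1) g e (x, y)| ≤ |σ - τ| * (C + 1) :=
      mul_le_mul_of_nonneg_left (by linarith) (abs_nonneg _)
    linarith
  have ht := hturn e he (X σ₂) (X σ₁) (hX σ₂) (hX σ₁) (by rw [hXα, hXα])
  obtain ⟨k, hk⟩ : ∃ k : ℤ, k = ⌊(q - X σ₁ β) / (2 * Real.pi)⌋ := ⟨_, rfl⟩
  have k1 := Int.floor_le ((q - X σ₁ β) / (2 * Real.pi))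
  have k2 := Int.lt_floor_add_one ((q - X σ₁ β) / (2 * Real.pi))
  rw [← hk] at k1 k2
  rw [le_div_iff₀ hpi] at k1
  rw [div_lt_iff₀ hpi] at k2
  have hmem : q - k * (2 * Real.pi) ∈ Icc (X σ₁ β) (X σ₂ β) := by
    constructor <;> linarith
  obtain ⟨σ, hσm, hσe⟩ := intermediate_value_Icc hσ12 hcont.continuousOn hmem
  refine ⟨σ, ⟨hσ1.trans hσm.1, hσm.2.trans hσ2⟩, X σ, hX σ, hXα σ, k, ?_⟩
  simp only at hσe
  rw [hσe]
  ring

lemma exists_bump (y₀ a b : ℝ) (hab : a ≤ b) (h : ∀ y ∈ Icc a b, Real.cos (y - y₀) < 1) :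
    ∃ χ : ℝ → ℝ, SmP χ ∧ (∀ y, 0 ≤ χ y) ∧ 0 < χ y₀ ∧ ∀ y ∈ Icc a b, χ y = 0 := by
  obtain ⟨y₁, hy₁, hmax⟩ := isCompact_Icc.exists_isMaxOn (nonempty_Icc.2 hab)
    (f := fun y => Real.cos (y - y₀)) (by fun_prop)
  refine ⟨fun y => Real.smoothTransition (Real.cos (y - y₀) - Real.cos (y₁ - y₀)), ⟨?_, ?_⟩,
    fun y => Real.smoothTransition.nonneg _, ?_, fun y hy => ?_⟩
  · refine Real.smoothTransition.contDiff.comp ?_
    exact (Real.contDiff_cos.comp (contDiff_id.sub contDiff_const)).sub contDiff_const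
  · intro y
    have : y + 2 * Real.pi - y₀ = y - y₀ + 2 * Real.pi := by ring
    rw [this, Real.cos_add_two_pi]
  · apply Real.smoothTransition.pos_of_pos
    rw [sub_self, Real.cos_zero]
    linarith [h y₁ hy₁]
  · apply Real.smoothTransition.zero_of_nonpos
    have := hmax hy
    simp only [mem_ofPred_eq] at this
    linarith

/-- the data of one leg are admissible for `s`: levels `L 0 < L 6 < L 3`, intervals
`(L 1, L 2)`, `(L 4, L 5)` and no zeros of `f` at the level `L 6` -/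
structure LegOK (s : Sys) (L : Fin 7 → ℝ) : Prop where
  h06 : (L 0 : ℝ) < L 6
  h63 : (L 6 : ℝ) < L 3
  h12 : (L 1 : ℝ) < L 2
  h45 : (L 4 : ℝ) < L 5
  ne : ∀ x : ℝ, s.f (x, (L 6 : ℝ), 0) ≠ 0

/-- the connection of a leg -/
def LConn (s : Sys) (e : ℝ) (L : Fin 7 → ℝ) : Prop :=
  Conn (Fs s.f s.g e) (L 0) (Ioo (L 1 : ℝ) (L 2)) (L 3) (Ioo (L 4 : ℝ) (L 5))

/-- the gap of `L` is not met by `L'` -/
def Cross (L L' : Fin 7 → ℝ) : Prop :=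
  ∀ y ∈ Icc (L' 0 : ℝ) (L' 3), Real.cos (y - (L 6 : ℝ)) < 1

lemma dense_conn {s : Sys} {L L' : Fin 7 → ℝ} (h : LegOK s L) (h' : LegOK s L')
    (hc : Cross L L') (hc' : Cross L' L) {N : Set Sys} (hN : N ∈ 𝓝 s) {e₀ : ℝ} (he₀ : 0 < e₀) :
    ∃ s' ∈ N, ∃ e ∈ Ioo 0 e₀, LConn s' e L ∧ LConn s' e L' := by
  obtain ⟨χ₁, hχ₁, p₁, q₁, r₁⟩ := exists_bump (L 6) (L' 0) (L' 3) (h'.h06.le.trans h'.h63.le) hc
  obtain ⟨χ₂, hχ₂, p₂, q₂, r₂⟩ := exists_bump (L' 6) (L 0) (L 3) (h.h06.le.trans h.h63.le) hc'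
  have hev : ∀ᶠ σ : ℝ × ℝ in 𝓝 (0, 0), s.pert hχ₁ hχ₂ σ ∈ N := by
    have := (continuous_pert s hχ₁ hχ₂).continuousAt (x := ((0:ℝ), (0:ℝ)))
    refine this.eventually ?_
    change ∀ᶠ y in 𝓝 (s.pert hχ₁ hχ₂ (0, 0)), y ∈ N
    rw [s.pert_zero]
    exact hN
  obtain ⟨ρ, hρ, hball⟩ := Metric.eventually_nhds_iff_ball.1 hev
  have hρ2 : 0 < ρ / 2 := half_pos hρ
  obtain ⟨ε₁, hε₁, hl₁⟩ := leg s.dat hχ₁ p₁ h.h06 h.h63 q₁ h.ne hρ2
  obtain ⟨ε₂, hε₂, hl₂⟩ := leg s.dat hχ₂ p₂ h'.h06 h'.h63 q₂ h'.ne hρ2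
  obtain ⟨e, he0, he1⟩ := exists_between (lt_min he₀ (lt_min hε₁ hε₂))
  have he2 := he1.trans_le (min_le_left _ _)
  have he3 := (he1.trans_le (min_le_right _ _)).trans_le (min_le_left _ _)
  have he4 := (he1.trans_le (min_le_right _ _)).trans_le (min_le_right _ _)
  obtain ⟨σ₁, hσ₁, X₁, hX₁, a₁, k₁, b₁⟩ := hl₁ e ⟨he0, he3⟩ ((L 1 + L 2) / 2) ((L 4 + L 5) / 2)
  obtain ⟨σ₂, hσ₂, X₂, hX₂, a₂, k₂, b₂⟩ := hl₂ e ⟨he0, he4⟩ ((L' 1 + L' 2) / 2)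
    ((L' 4 + L' 5) / 2)
  have hmemN : s.pert hχ₁ hχ₂ (σ₁, σ₂) ∈ N := by
    apply hball
    rw [Metric.mem_ball, Prod.dist_eq, max_lt_iff]
    simp only [Real.dist_eq, sub_zero]
    constructor
    · exact (abs_le.2 hσ₁).trans_lt (half_lt_self hρ)
    · exact (abs_le.2 hσ₂).trans_lt (half_lt_self hρ)
  have hn := (s.pert hχ₁ hχ₂ (σ₁, σ₂)).dat.nice he0
  refine ⟨_, hmemN, e, ⟨he0, he2⟩, ?_, ?_⟩
  · obtain ⟨Y, hY0, hY⟩ := exists_sol hn (L 0) ((L 1 + L 2) / 2)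
    have h5 : Y (L 3) = X₁ (L 3) := by
      refine sol_unique hn hY hX₁ (h.h06.le.trans h.h63.le) (by rw [hY0, a₁]) fun x y hy => ?_
      simp only [Fs, Sys.pert, r₂ y hy, mul_zero, add_zero]
    refine ⟨Y, hY, ?_, k₁, ?_⟩
    · rw [hY0]
      have := h.h12
      constructor <;> linarith
    · rw [h5, b₁]
      have := h.h45
      constructor <;> linarith
  · obtain ⟨Y, hY0, hY⟩ := exists_sol hn (L' 0) ((L' 1 + L' 2) / 2)
    have h5 : Y (L' 3) = X₂ (L' 3) := by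
      refine sol_unique hn hY hX₂ (h'.h06.le.trans h'.h63.le) (by rw [hY0, a₂]) fun x y hy => ?_
      simp only [Fs, Sys.pert, r₁ y hy, mul_zero, add_zero]
    refine ⟨Y, hY, ?_, k₂, ?_⟩
    · rw [hY0]
      have := h'.h12
      constructor <;> linarith
    · rw [h5, b₂]
      have := h'.h45
      constructor <;> linarith

/-- systems for which the data `L`, `L'` are admissible -/
def Adm (L L' : Fin 7 → ℝ) : Set Sys := {s | LegOK s L ∧ LegOK s L' ∧ Cross L L' ∧ Cross L' L}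

/-- the open dense sets -/
def ODense (n : ℕ) (L L' : Fin 7 → ℝ) : Set Sys :=
  {s | L 0 ≤ L 3 ∧ L' 0 ≤ L' 3 ∧ ∃ e ∈ Ioo (0:ℝ) (1 / (n + 1)), LConn s e L ∧
    LConn s e L'} ∪ (closure (Adm L L'))ᶜ

lemma isOpen_ODense (n : ℕ) (L L' : Fin 7 → ℝ) : IsOpen (ODense n L L') := by
  refine IsOpen.union ?_ isClosed_closure.isOpen_compl
  by_cases h : L 0 ≤ L 3 ∧ L' 0 ≤ L' 3
  · have h1 := isOpen_conn (J := Ioo (L 1 : ℝ) (L 2)) h.1 (isOpen_Ioo (a := (L 4 : ℝ)) (b := L 5))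
    have h2 := isOpen_conn (J := Ioo (L' 1 : ℝ) (L' 2)) h.2
      (isOpen_Ioo (a := (L' 4 : ℝ)) (b := L' 5))
    have h3 : IsOpen {q : Sys × ℝ | q.2 < 1 / ((n:ℝ) + 1)} := isOpen_lt continuous_snd
      continuous_const
    have h4 := isOpenMap_fst _ ((h1.inter h2).inter h3)
    convert h4 using 1
    ext s
    simp only [mem_ofPred_eq, mem_image, mem_inter_iff, Prod.exists, exists_and_right,
      exists_eq_right]
    constructor
    · rintro ⟨_, _, e, he, h5, h6⟩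
      exact ⟨e, ⟨⟨he.1, h5⟩, ⟨he.1, h6⟩⟩, he.2⟩
    · rintro ⟨e, ⟨⟨he, h5⟩, ⟨_, h6⟩⟩, he2⟩
      exact ⟨h.1, h.2, e, ⟨he, he2⟩, h5, h6⟩
  · convert isOpen_empty using 1
    ext s
    simp only [mem_ofPred_eq, mem_empty_iff_false, iff_false]
    rintro ⟨h1, h2, -⟩
    exact h ⟨h1, h2⟩

lemma dense_ODense (n : ℕ) (L L' : Fin 7 → ℝ) : Dense (ODense n L L') := by
  intro s
  rw [mem_closure_iff]
  intro N hN hs
  by_cases h : s ∈ closure (Adm L L')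
  · obtain ⟨s', hs'N, h1, h2, h3, h4⟩ := mem_closure_iff.1 h N hN hs
    obtain ⟨s'', h5, e, he, h6, h7⟩ := dense_conn h1 h2 h3 h4 (hN.mem_nhds hs'N)
      (e₀ := 1 / ((n:ℝ) + 1)) (by positivity)
    exact ⟨s'', h5, Or.inl ⟨h1.h06.le.trans h1.h63.le, h2.h06.le.trans h2.h63.le, e, he, h6, h7⟩⟩
  · exact ⟨s, hs, Or.inr h⟩

/-- the residual set -/
def Gen : Set Sys := ⋂ (n : ℕ) (L : Fin 7 → ℚ) (L' : Fin 7 → ℚ),
  ODense n (fun i => (L i : ℝ)) (fun i => (L' i : ℝ))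

lemma Gen_residual : Gen ∈ residual Sys := by
  unfold Gen
  rw [countable_iInter_mem]
  intro n
  rw [countable_iInter_mem]
  intro L
  rw [countable_iInter_mem]
  intro L'
  exact residual_of_dense_open (isOpen_ODense n _ _) (dense_ODense n _ _)

/-- data of a leg with a rational gap level -/
def mkL (α u v β u' v' : ℝ) (y : ℚ) : Fin 7 → ℝ := ![α, u, v, β, u', v', (y : ℝ)]

/-- the residual set for fixed segments -/
def GenFix (αm um vm αp up vp : Fin 2 → ℝ) : Set Sys := ⋂ (n : ℕ) (y₁ : ℚ) (y₂ : ℚ),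
  ODense n (mkL (αm 0) (um 0) (vm 0) (αp 1) (up 1) (vp 1) y₁)
    (mkL (αm 1) (um 1) (vm 1) (αp 0 + 2 * Real.pi) (up 0) (vp 0) y₂)

lemma GenFix_residual (αm um vm αp up vp : Fin 2 → ℝ) :
    GenFix αm um vm αp up vp ∈ residual Sys := by
  unfold GenFix
  rw [countable_iInter_mem]
  intro n
  rw [countable_iInter_mem]
  intro L
  rw [countable_iInter_mem]
  intro L'
  exact residual_of_dense_open (isOpen_ODense n _ _) (dense_ODense n _ _)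

/-- a sequence of intervals -/
lemma seq_of_ODense {s : Sys} {L L' : Fin 7 → ℝ} (hadm : s ∈ Adm L L')
    (hs : ∀ n, s ∈ ODense n L L') {ρ : ℝ} (hρ0 : 0 < ρ) {P Q : ℝ → Prop}
    (hP : ∀ e ∈ Ioo 0 ρ, LConn s e L → P e) (hQ : ∀ e ∈ Ioo 0 ρ, LConn s e L' → Q e) :
    ∃ l r : ℕ → ℝ, (∀ n, 0 < l n ∧ l n < r n) ∧ Tendsto r atTop (𝓝 0) ∧
      ∀ n, ∀ e ∈ Icc (l n) (r n), P e ∧ Q e := by
  obtain ⟨N, hN⟩ := exists_nat_one_div_lt hρ0
  have hseq : ∀ n : ℕ, ∃ l r : ℝ, 0 < l ∧ l < r ∧ r ≤ 1 / ((n:ℝ) + 1) ∧ ∀ e ∈ Icc l r,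
      P e ∧ Q e := by
    intro n
    rcases hs (n + N) with ⟨g1, g2, e₀, he₀, h2, h3⟩ | h1
    swap
    · exact absurd (subset_closure hadm) h1
    have o1 := isOpen_conn (J := Ioo (L 1) (L 2)) g1 (isOpen_Ioo (a := L 4) (b := L 5))
    have o2 := isOpen_conn (J := Ioo (L' 1) (L' 2)) g2 (isOpen_Ioo (a := L' 4) (b := L' 5))
    have hc : Continuous (fun e : ℝ => (s, e)) := by fun_prop
    have o3 := ((o1.inter o2).preimage hc).inter (isOpen_Iio (a := 1 / (((n + N : ℕ) : ℝ) + 1)))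
    obtain ⟨δ, hδ, hball⟩ := Metric.isOpen_iff.1 o3 e₀ ⟨⟨⟨he₀.1, h2⟩, ⟨he₀.1, h3⟩⟩, he₀.2⟩
    have hsub : ∀ e ∈ Icc (e₀ - δ / 2) (e₀ + δ / 2), 0 < e ∧ LConn s e L ∧ LConn s e L' ∧
        e < 1 / (((n + N : ℕ) : ℝ) + 1) := by
      intro e he
      have h5 : e ∈ Metric.ball e₀ δ := by
        rw [Metric.mem_ball, Real.dist_eq, abs_lt]
        constructor <;> linarith [he.1, he.2]
      obtain ⟨⟨⟨h6, h7⟩, ⟨_, h8⟩⟩, h9⟩ := hball h5
      exact ⟨h6, h7, h8, h9⟩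
    have hle1 : 1 / (((n + N : ℕ) : ℝ) + 1) ≤ 1 / ((n:ℝ) + 1) := by
      apply one_div_le_one_div_of_le (by positivity)
      push_cast
      linarith [N.cast_nonneg (α := ℝ)]
    have hle2 : 1 / (((n + N : ℕ) : ℝ) + 1) ≤ ρ := by
      refine le_trans ?_ hN.le
      apply one_div_le_one_div_of_le (by positivity)
      push_cast
      linarith [n.cast_nonneg (α := ℝ)]
    refine ⟨e₀ - δ / 2, e₀ + δ / 2, ?_, by linarith, ?_, fun e he => ?_⟩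
    · exact (hsub _ ⟨le_rfl, by linarith⟩).1
    · exact ((hsub (e₀ + δ / 2) ⟨by linarith, le_rfl⟩).2.2.2.trans_le hle1).le
    · obtain ⟨h6, h7, h8, h9⟩ := hsub e he
      exact ⟨hP e ⟨h6, h9.trans_le hle2⟩ h7, hQ e ⟨h6, h9.trans_le hle2⟩ h8⟩
  choose l r hl hlr hr hcan using hseq
  refine ⟨l, r, fun n => ⟨hl n, hlr n⟩, ?_, hcan⟩
  exact squeeze_zero (fun n => ((hl n).trans (hlr n)).le) hr tendsto_one_div_add_atTop_nhds_zero_nat

end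

end Pool.Agent.R194.GC
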