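import Pool.Agent.R194.GC.OvalEx

set_option autoImplicit false
open Topology Filter Set

namespace Pool.Agent.R194.GC

noncomputable section

lemma isOpen_forall {K : Set (ℝ × ℝ)} (hK : IsCompact K) {Ψ : Sys → ℝ × ℝ → ℝ}
    (hΨ : Continuous (fun q : Sys × (ℝ × ℝ) => Ψ q.1 q.2)) :
    IsOpen {s : Sys | ∀ z ∈ K, 0 < Ψ s z} := by
  rw [isOpen_iff_mem_nhds]
  intro s hs
  exact hK.eventually_forall_of_forall_eventually fun z hz =>
    hΨ.continuousAt.eventually (lt_mem_nhds (a := 0) (hs z hz))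

lemma cont_emb : Continuous (fun q : Sys × (ℝ × ℝ) => (q.1, ((q.2.1, q.2.2, (0:ℝ)) : ℝ × ℝ × ℝ))) := by
  fun_prop

lemma cont_f0 : Continuous (fun q : Sys × (ℝ × ℝ) => q.1.f (q.2.1, q.2.2, 0)) :=
  cont_f.comp cont_emb

lemma cont_Dy : Continuous (fun q : Sys × (ℝ × ℝ) => Dy q.1.f q.2) := by
  have h1 : (fun q : Sys × (ℝ × ℝ) => Dy q.1.f q.2) =
      fun q => iteratedFDeriv ℝ 1 q.1.f (q.2.1, q.2.2, 0) (fun _ => (0, 1, 0)) := by
    funext q; rw [iteratedFDeriv_one_apply]; rfl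
  rw [h1]
  exact (ContinuousMultilinearMap.apply ℝ (fun _ : Fin 1 => ℝ × ℝ × ℝ) ℝ
    (fun _ => (0, 1, 0))).continuous.comp ((cont_df 1).comp cont_emb)

lemma cont_Dxx : Continuous (fun q : Sys × (ℝ × ℝ) => Dxx q.1.f q.2) := by
  have h1 : (fun q : Sys × (ℝ × ℝ) => Dxx q.1.f q.2) =
      fun q => iteratedFDeriv ℝ 2 q.1.f (q.2.1, q.2.2, 0) (fun _ => (1, 0, 0)) := by
    funext q; rw [iteratedFDeriv_two_apply]; rfl
  rw [h1]
  exact (ContinuousMultilinearMap.apply ℝ (fun _ : Fin 2 => ℝ × ℝ × ℝ) ℝ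
    (fun _ => (1, 0, 0))).continuous.comp ((cont_df 2).comp cont_emb)

lemma isOpen_ovalCond (A₀ A₁ B₀ B₁ : ℝ) : IsOpen {s : Sys | OvalCond s.f A₀ A₁ B₀ B₁} := by
  have hI : ∀ a b c d : ℝ, IsCompact (Icc a b ×ˢ Icc c d) := fun a b c d =>
    isCompact_Icc.prod isCompact_Icc
  have o1 := isOpen_forall (Ψ := fun s z => Dxx s.f z) (hI (-cc) cc A₀ B₁) cont_Dxx
  have o2 := isOpen_forall (Ψ := fun s z => s.f (z.1, z.2, 0))
    (hI cc (2 * Real.pi - cc) A₀ B₁) cont_f0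
  have o3 := isOpen_forall (Ψ := fun s z => s.f (z.1, z.2, 0)) (hI (-cc) cc A₀ A₀) cont_f0
  have o4 := isOpen_forall (Ψ := fun s z => s.f (z.1, z.2, 0)) (hI (-cc) cc B₁ B₁) cont_f0
  have o5 := isOpen_forall (Ψ := fun s z => - s.f (z.1, z.2, 0)) (hI 0 0 A₁ B₀) cont_f0.neg
  have o6 := isOpen_forall (Ψ := fun s z => - Dy s.f z) (hI (-cc) cc A₀ A₁) cont_Dy.neg
  have o7 := isOpen_forall (Ψ := fun s z => Dy s.f z) (hI (-cc) cc B₀ B₁) cont_Dy
  convert o1.inter (o2.inter (o3.inter (o4.inter (o5.inter (o6.inter o7))))) using 1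
  ext s
  constructor
  · rintro ⟨h1, h2, h3, h4, h5, h6, h7⟩
    exact ⟨h1, h2, h3, h4, h5, h6, h7⟩
  · rintro ⟨h1, h2, h3, h4, h5, h6, h7⟩
    exact ⟨h1, h2, h3, h4, h5, h6, h7⟩

/-- no zeros over `[A, B]` -/
def GapCond (f : ℝ × ℝ × ℝ → ℝ) (A B : ℝ) : Prop :=
  ∀ z ∈ Icc (0:ℝ) (2 * Real.pi) ×ˢ Icc A B, 0 < f (z.1, z.2, 0)

/-- the open set -/
def UU : Set Sys := {s | OvalCond s.f (Real.pi / 6) (Real.pi / 3) (2 * Real.pi / 3) (5 * Real.pi / 6)}
  ∩ ({s | OvalCond s.f (7 * Real.pi / 6) (4 * Real.pi / 3) (5 * Real.pi / 3) (11 * Real.pi / 6)}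
  ∩ ({s | GapCond s.f (5 * Real.pi / 6) (7 * Real.pi / 6)}
  ∩ {s | GapCond s.f (11 * Real.pi / 6) (13 * Real.pi / 6)}))

lemma isOpen_UU : IsOpen UU :=
  (isOpen_ovalCond _ _ _ _).inter ((isOpen_ovalCond _ _ _ _).inter
    ((isOpen_forall (Ψ := fun s z => s.f (z.1, z.2, 0)) (isCompact_Icc.prod isCompact_Icc)
      cont_f0).inter (isOpen_forall (Ψ := fun s z => s.f (z.1, z.2, 0))
      (isCompact_Icc.prod isCompact_Icc) cont_f0)))

/-- the base system -/
def base : Sys where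
  f := fun p => 1 + Real.cos (2 * p.2.1) / 2 - Real.cos p.1
  g := fun _ => 1
  f_smooth := by
    refine ContDiff.sub (contDiff_const.add (ContDiff.div_const (Real.contDiff_cos.comp ?_) 2))
      (Real.contDiff_cos.comp contDiff_fst)
    exact contDiff_const.mul (contDiff_fst.comp contDiff_snd)
  g_smooth := contDiff_const
  f_perx := fun x y e => by simp only [Real.cos_add_two_pi]
  f_pery := fun x y e => by
    have : 2 * (y + 2 * Real.pi) = 2 * y + 2 * Real.pi + 2 * Real.pi := by ring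
    simp only [this, Real.cos_add_two_pi]
  g_perx := fun _ _ _ => rfl
  g_pery := fun _ _ _ => rfl
  g_pos := fun _ => one_pos

lemma Sys.c2 (s : Sys) : ContDiff ℝ 2 s.f :=
  s.f_smooth.of_le (WithTop.coe_le_coe.2 (le_top : (2 : ℕ∞) ≤ ⊤))

lemma base_Dy (x y : ℝ) : Dy base.f (x, y) = - Real.sin (2 * y) := by
  have h1 : HasDerivAt (fun y => base.f (x, y, 0)) (- Real.sin (2 * y)) y := by
    have h2 : HasDerivAt (fun y : ℝ => 2 * y) 2 y := by simpa using (hasDerivAt_id y).const_mul 2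
    have h3 := ((h2.cos.div_const 2).const_add 1).sub_const (Real.cos x)
    refine h3.congr_deriv ?_
    ring
  exact (hd_y base.c2 x y).unique h1

lemma base_Dx (x y : ℝ) : Dx base.f (x, y) = Real.sin x := by
  have h1 : HasDerivAt (fun x => base.f (x, y, 0)) (Real.sin x) x := by
    have h3 := (Real.hasDerivAt_cos x).const_sub (1 + Real.cos (2 * y) / 2)
    refine h3.congr_deriv ?_
    ring
  exact (hd_x base.c2 x y).unique h1

lemma base_Dxx (x y : ℝ) : Dxx base.f (x, y) = Real.cos x := by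
  have h1 := hd_xx base.c2 x y
  have h2 : (fun x => Dx base.f (x, y)) = Real.sin := by funext x; exact base_Dx x y
  rw [h2] at h1
  exact h1.unique (Real.hasDerivAt_sin x)

lemma cos_lt_half {x : ℝ} (h1 : cc ≤ x) (h2 : x ≤ 2 * Real.pi - cc) : Real.cos x < 1 / 2 := by
  have hp := Real.pi_pos
  have hc : Real.pi / 3 < cc := by unfold cc; linarith
  rw [← Real.cos_pi_div_three]
  rcases le_or_gt x Real.pi with h | h
  · exact Real.cos_lt_cos_of_nonneg_of_le_pi (by linarith) h (by linarith)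
  · rw [← Real.cos_two_pi_sub]
    exact Real.cos_lt_cos_of_nonneg_of_le_pi (by linarith) (by linarith) (by linarith)

/-- the conditions for the base system over an interval -/
lemma base_oval {A₀ A₁ B₀ B₁ : ℝ} (hA : Real.cos (2 * A₀) = 1 / 2) (hB : Real.cos (2 * B₁) = 1 / 2)
    (hmid : ∀ y ∈ Icc A₁ B₀, Real.cos (2 * y) < 0)
    (hdA : ∀ y ∈ Icc A₀ A₁, 0 < Real.sin (2 * y))
    (hdB : ∀ y ∈ Icc B₀ B₁, Real.sin (2 * y) < 0) : OvalCond base.f A₀ A₁ B₀ B₁ := by
  have hp := Real.pi_pos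
  refine ⟨?_, ?_, ?_, ?_, ?_, ?_, ?_⟩
  · rintro ⟨x, y⟩ ⟨hx, hy⟩
    rw [base_Dxx]
    refine Real.cos_pos_of_mem_Ioo ⟨?_, ?_⟩
    · have := hx.1
      unfold cc at this
      simp only at this ⊢
      linarith
    · have := hx.2
      unfold cc at this
      simp only at this ⊢
      linarith
  · rintro ⟨x, y⟩ ⟨hx, hy⟩
    have h1 := cos_lt_half hx.1 hx.2
    have h2 := Real.neg_one_le_cos (2 * y)
    simp only [base] at h1 h2 ⊢
    linarith
  · rintro ⟨x, y⟩ ⟨hx, hy⟩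
    obtain rfl : y = A₀ := le_antisymm hy.2 hy.1
    simp only [base]
    rw [hA]
    linarith [Real.cos_le_one x]
  · rintro ⟨x, y⟩ ⟨hx, hy⟩
    obtain rfl : y = B₁ := le_antisymm hy.2 hy.1
    simp only [base]
    rw [hB]
    linarith [Real.cos_le_one x]
  · rintro ⟨x, y⟩ ⟨hx, hy⟩
    obtain rfl : x = 0 := le_antisymm hx.2 hx.1
    simp only [base, Real.cos_zero]
    linarith [hmid y hy]
  · rintro ⟨x, y⟩ ⟨hx, hy⟩
    rw [base_Dy, neg_neg]
    exact hdA y hy
  · rintro ⟨x, y⟩ ⟨hx, hy⟩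
    rw [base_Dy]
    linarith [hdB y hy]

lemma base_gap {A B : ℝ} (h : ∀ y ∈ Icc A B, 0 < Real.cos (2 * y)) : GapCond base.f A B := by
  rintro ⟨x, y⟩ ⟨hx, hy⟩
  simp only [base]
  linarith [Real.cos_le_one x, h y hy]

lemma base_mem : base ∈ UU := by
  have hp := Real.pi_pos
  have per : ∀ t, Real.cos (t - 2 * Real.pi) = Real.cos t := fun t => Real.cos_sub_two_pi t
  have pers : ∀ t, Real.sin (t - 2 * Real.pi) = Real.sin t := fun t => Real.sin_sub_two_pi t
  refine ⟨base_oval ?_ ?_ ?_ ?_ ?_, base_oval ?_ ?_ ?_ ?_ ?_, base_gap ?_, base_gap ?_⟩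
  · rw [show 2 * (Real.pi / 6) = Real.pi / 3 by ring, Real.cos_pi_div_three]
  · rw [show 2 * (5 * Real.pi / 6) = 2 * Real.pi - Real.pi / 3 by ring, Real.cos_two_pi_sub,
      Real.cos_pi_div_three]
  · intro y hy
    exact Real.cos_neg_of_pi_div_two_lt_of_lt (by linarith [hy.1]) (by linarith [hy.2])
  · intro y hy
    exact Real.sin_pos_of_pos_of_lt_pi (by linarith [hy.1]) (by linarith [hy.2])
  · intro y hy
    rw [← pers]
    exact Real.sin_neg_of_neg_of_neg_pi_lt (by linarith [hy.2]) (by linarith [hy.1])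
  · rw [show 2 * (7 * Real.pi / 6) = Real.pi / 3 + 2 * Real.pi by ring, Real.cos_add_two_pi,
      Real.cos_pi_div_three]
  · rw [show 2 * (11 * Real.pi / 6) = 2 * Real.pi - Real.pi / 3 + 2 * Real.pi by ring,
      Real.cos_add_two_pi, Real.cos_two_pi_sub, Real.cos_pi_div_three]
  · intro y hy
    rw [← per]
    exact Real.cos_neg_of_pi_div_two_lt_of_lt (by linarith [hy.1]) (by linarith [hy.2])
  · intro y hy
    rw [← pers]
    exact Real.sin_pos_of_pos_of_lt_pi (by linarith [hy.1]) (by linarith [hy.2])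
  · intro y hy
    rw [← pers, ← pers]
    exact Real.sin_neg_of_neg_of_neg_pi_lt (by linarith [hy.2]) (by linarith [hy.1])
  · intro y hy
    rw [← per]
    exact Real.cos_pos_of_mem_Ioo ⟨by linarith [hy.1], by linarith [hy.2]⟩
  · intro y hy
    rw [← per, ← per]
    exact Real.cos_pos_of_mem_Ioo ⟨by linarith [hy.1], by linarith [hy.2]⟩

lemma gap_all (s : Sys) {A B : ℝ} (h : GapCond s.f A B) (x : ℝ) {y : ℝ} (hy : y ∈ Icc A B) :
    s.f (x, y, 0) ≠ 0 := by
  revert x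
  refine per_rep (c := 2 * Real.pi) (by positivity) (fun x => ?_) fun x hx => ?_
  · simp only [s.f_perx]
  · exact (h (x, y) ⟨hx, hy⟩).ne'

/-- systems in `UU` have simple unconnected slow curves -/
lemma simple_of_mem {s : Sys} (hs : s ∈ UU) : SimpleUnconnected s := by
  obtain ⟨h1, h2, h3, h4⟩ := hs
  have hp := Real.pi_pos
  obtain ⟨a, b, ha0, ha1, hb0, hb1, ho, hz⟩ := exists_oval s.c2 s.f_perx
    (by linarith : Real.pi / 6 < Real.pi / 3) (by linarith) (by linarith) h1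
  obtain ⟨a', b', ha0', ha1', hb0', hb1', ho', hz'⟩ := exists_oval s.c2 s.f_perx
    (by linarith : 7 * Real.pi / 6 < 4 * Real.pi / 3) (by linarith) (by linarith) h2
  refine ⟨![a, a'], ![b, b'], ![xm s.f, xm s.f], ![xp s.f, xp s.f], ?_, ?_, ?_, ?_, ?_⟩
  · intro i
    fin_cases i
    · exact ho
    · exact ho'
  · change b < a'
    linarith
  · change b' < a + 2 * Real.pi
    linarith
  · intro y hy x
    change y ∈ Ioo b a' at hy
    rcases le_or_gt y (5 * Real.pi / 6) with h5 | h5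
    · exact hz y ⟨by linarith [hy.1], h5⟩ (Or.inr hy.1) x
    · rcases le_or_gt y (7 * Real.pi / 6) with h6 | h6
      · exact gap_all s h3 x ⟨h5.le, h6⟩
      · exact hz' y ⟨h6.le, by linarith [hy.2]⟩ (Or.inl hy.2) x
  · intro y hy x
    change y ∈ Ioo b' (a + 2 * Real.pi) at hy
    rcases le_or_gt y (11 * Real.pi / 6) with h5 | h5
    · exact hz' y ⟨by linarith [hy.1], h5⟩ (Or.inr hy.1) x
    · rcases le_or_gt y (13 * Real.pi / 6) with h6 | h6
      · exact gap_all s h4 x ⟨h5.le, h6⟩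
      · have h7 := hz (y - 2 * Real.pi) ⟨by linarith, by linarith [hy.2]⟩
          (Or.inl (by linarith [hy.2])) x
        have h8 := s.f_pery x (y - 2 * Real.pi) 0
        rw [sub_add_cancel] at h8
        rw [h8]
        exact h7

end

end Pool.Agent.R194.GC
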