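import Pool.Agent.R194.GC.Slow

set_option autoImplicit false
open Topology Filter Set

namespace Pool.Agent.R194.GC

noncomputable section

lemma Sys.f_int (s : Sys) (x y e : ℝ) (k : ℤ) :
    s.f (x + k * (2 * Real.pi), y, e) = s.f (x, y, e) := by
  have h : Function.Periodic (fun x => s.f (x, y, e)) (2 * Real.pi) := fun x => s.f_perx x y e
  exact h.int_mul k x

lemma Sys.Fs_int (s : Sys) (x y e : ℝ) (k : ℤ) :
    Fs s.f s.g e (x + k * (2 * Real.pi), y) = Fs s.f s.g e (x, y) := by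
  have h : Function.Periodic (fun x => Fs s.f s.g e (x, y)) (2 * Real.pi) := fun x => by
    simp only [Fs, s.f_perx, s.g_perx]
  exact h.int_mul k x

lemma Sys.deriv_int (s : Sys) (x y e : ℝ) (k : ℤ) :
    deriv (fun x => s.f (x, y, e)) (x + k * (2 * Real.pi)) = deriv (fun x => s.f (x, y, e)) x := by
  have h1 : (fun x => s.f (x, y, e)) = fun x => s.f (x + k * (2 * Real.pi), y, e) := by
    funext x; rw [s.f_int]
  conv_rhs => rw [h1]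
  exact (deriv_comp_add_const (f := fun x => s.f (x, y, e)) (k * (2 * Real.pi)) x).symm

lemma cos_lt_one {t : ℝ} (h0 : t ≠ 0) (h1 : -(2 * Real.pi) < t) (h2 : t < 2 * Real.pi) :
    Real.cos t < 1 := by
  refine lt_of_le_of_ne (Real.cos_le_one t) fun h => h0 ?_
  exact (Real.cos_eq_one_iff_of_lt_of_lt h1 h2).1 h

theorem coexist {s : Sys} (hs : s ∈ Gen) {a b : Fin 2 → ℝ} {m p : Fin 2 → ℝ → ℝ}
    (h : SlowCurve s a b m p) {αm um vm αp up vp : Fin 2 → ℝ}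
    (hαm : ∀ i, αm i ∈ Ioo (a i) (b i)) (hαp : ∀ i, αp i ∈ Ioo (a i) (b i))
    (hm : ∀ i, ∃ k : ℤ, m i (αm i) + k * (2 * Real.pi) ∈ Ioo (um i) (vm i))
    (hp : ∀ i, ∃ k : ℤ, p i (αp i) + k * (2 * Real.pi) ∈ Ioo (up i) (vp i)) :
    ∃ l r : ℕ → ℝ, (∀ n, 0 < l n ∧ l n < r n) ∧ Tendsto r atTop (𝓝 0) ∧
      ∀ n, ∀ e ∈ Icc (l n) (r n),
        GrandCanard s e (αm 0) (um 0) (vm 0) (αp 1) (up 1) (vp 1) ∧
        GrandCanard s e (αm 1) (um 1) (vm 1) (αp 0) (up 0) (vp 0) := by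
  have hA : ∀ i, ∃ ρ > 0, ∃ u₁ v₁ : ℚ, (u₁ : ℝ) < v₁ ∧ ∀ e ∈ Ioo 0 ρ,
      ∀ y' ∈ Ioo (αm i - ρ) (αm i), ∀ X, Sol (Fs s.f s.g e) X → X y' ∈ Ioo (u₁ : ℝ) v₁ →
        X (αm i) ∈ Icc (um i) (vm i) := by
    intro i
    obtain ⟨k, hk⟩ := hm i
    refine att_sec s.dat hk ?_ ?_
    · exact ((h.oval i).zero _ (Ioo_subset_Icc_self (hαm i)) _).2 ⟨k, Or.inl rfl⟩
    · rw [s.deriv_int]
      exact (h.oval i).att _ (hαm i)
  have hB : ∀ (i : Fin 2) (c : ℝ), (∀ x, s.f (x, c, 0) = s.f (x, αp i, 0)) →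
      ∃ ρ > 0, ∃ u₁ v₁ : ℚ, (u₁ : ℝ) < v₁ ∧ ∀ e ∈ Ioo 0 ρ,
      ∀ y' ∈ Ioo c (c + ρ), ∀ X, Sol (Fs s.f s.g e) X → X y' ∈ Ioo (u₁ : ℝ) v₁ →
        X c ∈ Icc (up i) (vp i) := by
    intro i c hc
    obtain ⟨k, hk⟩ := hp i
    refine rep_sec s.dat hk ?_ ?_
    · rw [hc]
      exact ((h.oval i).zero _ (Ioo_subset_Icc_self (hαp i)) _).2 ⟨k, Or.inr rfl⟩
    · have : (fun x => s.f (x, c, 0)) = fun x => s.f (x, αp i, 0) := funext hc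
      rw [this, s.deriv_int]
      exact (h.oval i).rep _ (hαp i)
  obtain ⟨ρ₁, hρ₁, u₁, v₁, huv₁, H₁⟩ := hA 0
  obtain ⟨ρ₂, hρ₂, u₂, v₂, huv₂, H₂⟩ := hA 1
  obtain ⟨ρ₃, hρ₃, u₃, v₃, huv₃, H₃⟩ := hB 1 (αp 1) (fun _ => rfl)
  obtain ⟨ρ₄, hρ₄, u₄, v₄, huv₄, H₄⟩ := hB 0 (αp 0 + 2 * Real.pi) (fun x => s.f_pery x _ _)
  obtain ⟨ρ, hρ⟩ : ∃ ρ, ρ = min (min ρ₁ ρ₂) (min ρ₃ ρ₄) := ⟨_, rfl⟩
  have hρ0 : 0 < ρ := by rw [hρ]; exact lt_min (lt_min hρ₁ hρ₂) (lt_min hρ₃ hρ₄)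
  have le1 : ρ ≤ ρ₁ := by rw [hρ]; exact (min_le_left _ _).trans (min_le_left _ _)
  have le2 : ρ ≤ ρ₂ := by rw [hρ]; exact (min_le_left _ _).trans (min_le_right _ _)
  have le3 : ρ ≤ ρ₃ := by rw [hρ]; exact (min_le_right _ _).trans (min_le_left _ _)
  have le4 : ρ ≤ ρ₄ := by rw [hρ]; exact (min_le_right _ _).trans (min_le_right _ _)
  have A0 := hαm 0
  have A1 := hαm 1
  have B0 := hαp 0
  have B1 := hαp 1
  have lt₁ := h.lt₁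
  have lt₂ := h.lt₂
  obtain ⟨α₀, ha1, ha2⟩ := exists_rat_btwn (show max (αm 0 - ρ) (a 0) < αm 0 from
    max_lt (by linarith) A0.1)
  obtain ⟨α₁, hb1, hb2⟩ := exists_rat_btwn (show max (αm 1 - ρ) (a 1) < αm 1 from
    max_lt (by linarith) A1.1)
  obtain ⟨β₁, hc1, hc2⟩ := exists_rat_btwn (show αp 1 < min (αp 1 + ρ) (b 1) from
    lt_min (by linarith) B1.2)
  obtain ⟨β₀, hd1, hd2⟩ := exists_rat_btwn
    (show αp 0 + 2 * Real.pi < min (αp 0 + 2 * Real.pi + ρ) (b 0 + 2 * Real.pi) from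
    lt_min (by linarith) (by linarith [B0.2]))
  obtain ⟨y₁, he1, he2⟩ := exists_rat_btwn lt₁
  obtain ⟨y₂, hf1, hf2⟩ := exists_rat_btwn lt₂
  rw [max_lt_iff] at ha1 hb1
  rw [lt_min_iff] at hc2 hd2
  obtain ⟨L₀, hL₀⟩ : ∃ L : Fin 7 → ℚ, L = ![α₀, u₁, v₁, β₁, u₃, v₃, y₁] := ⟨_, rfl⟩
  obtain ⟨L₀', hL₀'⟩ : ∃ L' : Fin 7 → ℚ, L' = ![α₁, u₂, v₂, β₀, u₄, v₄, y₂] := ⟨_, rfl⟩
  obtain ⟨L, hL⟩ : ∃ L : Fin 7 → ℝ, L = fun i => (L₀ i : ℝ) := ⟨_, rfl⟩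
  obtain ⟨L', hL'⟩ : ∃ L : Fin 7 → ℝ, L = fun i => (L₀' i : ℝ) := ⟨_, rfl⟩
  have q0 : L 0 = (α₀ : ℝ) := by rw [hL, hL₀]; rfl
  have q1 : L 1 = (u₁ : ℝ) := by rw [hL, hL₀]; rfl
  have q2 : L 2 = (v₁ : ℝ) := by rw [hL, hL₀]; rfl
  have q3 : L 3 = (β₁ : ℝ) := by rw [hL, hL₀]; rfl
  have q4 : L 4 = (u₃ : ℝ) := by rw [hL, hL₀]; rfl
  have q5 : L 5 = (v₃ : ℝ) := by rw [hL, hL₀]; rfl
  have q6 : L 6 = (y₁ : ℝ) := by rw [hL, hL₀]; rfl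
  have r0 : L' 0 = (α₁ : ℝ) := by rw [hL', hL₀']; rfl
  have r1 : L' 1 = (u₂ : ℝ) := by rw [hL', hL₀']; rfl
  have r2 : L' 2 = (v₂ : ℝ) := by rw [hL', hL₀']; rfl
  have r3 : L' 3 = (β₀ : ℝ) := by rw [hL', hL₀']; rfl
  have r4 : L' 4 = (u₄ : ℝ) := by rw [hL', hL₀']; rfl
  have r5 : L' 5 = (v₄ : ℝ) := by rw [hL', hL₀']; rfl
  have r6 : L' 6 = (y₂ : ℝ) := by rw [hL', hL₀']; rfl
  have hadm : s ∈ Adm L L' := by
    refine ⟨⟨?_, ?_, ?_, ?_, ?_⟩, ⟨?_, ?_, ?_, ?_, ?_⟩, ?_, ?_⟩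
    · rw [q0, q6]; linarith [A0.2]
    · rw [q6, q3]; linarith [B1.1]
    · rw [q1, q2]; exact huv₁
    · rw [q4, q5]; exact huv₃
    · rw [q6]; exact h.gap₁ _ ⟨he1, he2⟩
    · rw [r0, r6]; linarith [A1.2]
    · rw [r6, r3]; linarith [B0.1]
    · rw [r1, r2]; exact huv₂
    · rw [r4, r5]; exact huv₄
    · rw [r6]; exact h.gap₂ _ ⟨hf1, hf2⟩
    · intro y hy
      rw [r0, r3] at hy
      rw [q6]
      have e1 : (0:ℝ) < y - y₁ := by linarith [hy.1, hb1.2]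
      exact cos_lt_one e1.ne' (by linarith [Real.pi_pos]) (by linarith [hy.2, hd2.2])
    · intro y hy
      rw [q0, q3] at hy
      rw [r6]
      have e1 : y - (y₂:ℝ) < 0 := by linarith [hy.2, hc2.2]
      exact cos_lt_one e1.ne (by linarith [hy.1, ha1.2]) (by linarith [Real.pi_pos])
  -- conversion
  have conv1 : ∀ e ∈ Ioo 0 ρ, LConn s e L →
      GrandCanard s e (αm 0) (um 0) (vm 0) (αp 1) (up 1) (vp 1) := by
    rintro e he ⟨X, hX, h1, k, h2⟩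
    rw [q0, q1, q2] at h1
    rw [q3, q4, q5] at h2
    refine canard_of_sol s he.1 hX 0 ?_ ?_ ?_ ⟨k, ?_⟩
    · simp only [Int.cast_zero, zero_mul, add_zero]
      linarith [A0.2, B1.1]
    · simp only [Int.cast_zero, zero_mul, add_zero]
      linarith [A0.1, B1.2]
    · exact H₁ e ⟨he.1, he.2.trans_le le1⟩ α₀ ⟨by linarith [ha1.1], ha2⟩ X hX h1
    · simp only [Int.cast_zero, zero_mul, add_zero]
      exact H₃ e ⟨he.1, he.2.trans_le le3⟩ β₁ ⟨hc1, by linarith [hc2.1]⟩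
        (fun y => X y + k * (2 * Real.pi)) (hX.shift fun x y => s.Fs_int x y e k) h2
  have conv2 : ∀ e ∈ Ioo 0 ρ, LConn s e L' →
      GrandCanard s e (αm 1) (um 1) (vm 1) (αp 0) (up 0) (vp 0) := by
    rintro e he ⟨X, hX, h1, k, h2⟩
    rw [r0, r1, r2] at h1
    rw [r3, r4, r5] at h2
    refine canard_of_sol s he.1 hX 1 ?_ ?_ ?_ ⟨k, ?_⟩
    · simp only [Int.cast_one, one_mul]
      linarith [A1.2, B0.1]
    · simp only [Int.cast_one, one_mul]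
      linarith [A1.1, B0.2]
    · exact H₂ e ⟨he.1, he.2.trans_le le2⟩ α₁ ⟨by linarith [hb1.1], hb2⟩ X hX h1
    · simp only [Int.cast_one, one_mul]
      exact H₄ e ⟨he.1, he.2.trans_le le4⟩ β₀ ⟨hd1, by linarith [hd2.1]⟩
        (fun y => X y + k * (2 * Real.pi)) (hX.shift fun x y => s.Fs_int x y e k) h2
  refine seq_of_ODense hadm (fun n => ?_) hρ0 conv1 conv2
  have := hs
  simp only [Gen, mem_iInter] at this
  rw [hL, hL']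
  exact this n L₀ L₀'

/-- coexistence for fixed segments -/
theorem coexist_fix {αm um vm αp up vp : Fin 2 → ℝ} (hum : ∀ i, um i < vm i)
    (hup : ∀ i, up i < vp i) {s : Sys} (hs : s ∈ GenFix αm um vm αp up vp) {a b : Fin 2 → ℝ}
    {m p : Fin 2 → ℝ → ℝ} (h : SlowCurve s a b m p)
    (hαm : ∀ i, αm i ∈ Ioo (a i) (b i)) (hαp : ∀ i, αp i ∈ Ioo (a i) (b i)) :
    ∃ l r : ℕ → ℝ, (∀ n, 0 < l n ∧ l n < r n) ∧ Tendsto r atTop (𝓝 0) ∧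
      ∀ n, ∀ e ∈ Icc (l n) (r n),
        GrandCanard s e (αm 0) (um 0) (vm 0) (αp 1) (up 1) (vp 1) ∧
        GrandCanard s e (αm 1) (um 1) (vm 1) (αp 0) (up 0) (vp 0) := by
  have A0 := hαm 0
  have A1 := hαm 1
  have B0 := hαp 0
  have B1 := hαp 1
  have lt₁ := h.lt₁
  have lt₂ := h.lt₂
  obtain ⟨y₁, he1, he2⟩ := exists_rat_btwn lt₁
  obtain ⟨y₂, hf1, hf2⟩ := exists_rat_btwn lt₂
  obtain ⟨L, hL⟩ : ∃ L, L = mkL (αm 0) (um 0) (vm 0) (αp 1) (up 1) (vp 1) y₁ := ⟨_, rfl⟩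
  obtain ⟨L', hL'⟩ : ∃ L, L = mkL (αm 1) (um 1) (vm 1) (αp 0 + 2 * Real.pi) (up 0) (vp 0) y₂ :=
    ⟨_, rfl⟩
  have q0 : L 0 = αm 0 := by rw [hL]; rfl
  have q1 : L 1 = um 0 := by rw [hL]; rfl
  have q2 : L 2 = vm 0 := by rw [hL]; rfl
  have q3 : L 3 = αp 1 := by rw [hL]; rfl
  have q4 : L 4 = up 1 := by rw [hL]; rfl
  have q5 : L 5 = vp 1 := by rw [hL]; rfl
  have q6 : L 6 = y₁ := by rw [hL]; rfl
  have r0 : L' 0 = αm 1 := by rw [hL']; rfl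
  have r1 : L' 1 = um 1 := by rw [hL']; rfl
  have r2 : L' 2 = vm 1 := by rw [hL']; rfl
  have r3 : L' 3 = αp 0 + 2 * Real.pi := by rw [hL']; rfl
  have r4 : L' 4 = up 0 := by rw [hL']; rfl
  have r5 : L' 5 = vp 0 := by rw [hL']; rfl
  have r6 : L' 6 = y₂ := by rw [hL']; rfl
  have hadm : s ∈ Adm L L' := by
    refine ⟨⟨?_, ?_, ?_, ?_, ?_⟩, ⟨?_, ?_, ?_, ?_, ?_⟩, ?_, ?_⟩
    · rw [q0, q6]; linarith [A0.2]
    · rw [q6, q3]; linarith [B1.1]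
    · rw [q1, q2]; exact hum 0
    · rw [q4, q5]; exact hup 1
    · rw [q6]; exact h.gap₁ _ ⟨he1, he2⟩
    · rw [r0, r6]; linarith [A1.2]
    · rw [r6, r3]; linarith [B0.1]
    · rw [r1, r2]; exact hum 1
    · rw [r4, r5]; exact hup 0
    · rw [r6]; exact h.gap₂ _ ⟨hf1, hf2⟩
    · intro y hy
      rw [r0, r3] at hy
      rw [q6]
      have e1 : (0:ℝ) < y - y₁ := by linarith [hy.1, A1.1]
      exact cos_lt_one e1.ne' (by linarith [Real.pi_pos]) (by linarith [hy.2, B0.2])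
    · intro y hy
      rw [q0, q3] at hy
      rw [r6]
      have e1 : y - (y₂:ℝ) < 0 := by linarith [hy.2, B1.2]
      exact cos_lt_one e1.ne (by linarith [hy.1, A0.1]) (by linarith [Real.pi_pos])
  refine seq_of_ODense hadm (fun n => ?_) one_pos ?_ ?_
  · have := hs
    simp only [GenFix, mem_iInter] at this
    rw [hL, hL']
    exact this n y₁ y₂
  · rintro e he ⟨X, hX, h1, k, h2⟩
    rw [q0, q1, q2] at h1
    rw [q3, q4, q5] at h2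
    refine canard_of_sol s he.1 hX 0 ?_ ?_ (Ioo_subset_Icc_self h1) ⟨k, ?_⟩
    · simp only [Int.cast_zero, zero_mul, add_zero]
      linarith [A0.2, B1.1]
    · simp only [Int.cast_zero, zero_mul, add_zero]
      linarith [A0.1, B1.2]
    · simp only [Int.cast_zero, zero_mul, add_zero]
      exact Ioo_subset_Icc_self h2
  · rintro e he ⟨X, hX, h1, k, h2⟩
    rw [r0, r1, r2] at h1
    rw [r3, r4, r5] at h2
    refine canard_of_sol s he.1 hX 1 ?_ ?_ (Ioo_subset_Icc_self h1) ⟨k, ?_⟩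
    · simp only [Int.cast_one, one_mul]
      linarith [A1.2, B0.1]
    · simp only [Int.cast_one, one_mul]
      linarith [A1.1, B0.2]
    · simp only [Int.cast_one, one_mul]
      exact Ioo_subset_Icc_self h2

end

end Pool.Agent.R194.GC
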