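import Pool.Agent.GR.Flow

set_option autoImplicit false
open Topology Filter Set

namespace Pool.Agent.R194.GC

noncomputable section

/-- Lipschitz and bounded -/
structure Nice (F : ℝ × ℝ → ℝ) : Prop where
  lip : ∃ K : NNReal, LipschitzWith K F
  bdd : ∃ M : ℝ, ∀ z, |F z| ≤ M

/-- `X` solves `dX/dy = F(X, y)` -/
def Sol (F : ℝ × ℝ → ℝ) (X : ℝ → ℝ) : Prop := ∀ y, HasDerivAt X (F (X y, y)) y

lemma Sol.continuous {F : ℝ × ℝ → ℝ} {X : ℝ → ℝ} (h : Sol F X) : Continuous X :=
  continuous_iff_continuousAt.2 fun y => (h y).continuousAt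

lemma exists_rep {E : Type} {G : ℝ × ℝ → E} {c : ℝ} (hc : 0 < c)
    (hx : ∀ x y, G (x + c, y) = G (x, y)) (hy : ∀ x y, G (x, y + c) = G (x, y)) (z : ℝ × ℝ) :
    ∃ z' ∈ Icc (0:ℝ) c ×ˢ Icc (0:ℝ) c, G z = G z' := by
  obtain ⟨x, y⟩ := z
  have h1 : Function.Periodic (fun x => G (x, y)) c := fun x => hx x y
  obtain ⟨x', hx', e1⟩ := h1.exists_mem_Ico₀ hc x
  have h2 : Function.Periodic (fun y => G (x', y)) c := fun y => hy x' y
  obtain ⟨y', hy', e2⟩ := h2.exists_mem_Ico₀ hc y
  exact ⟨(x', y'), ⟨Ico_subset_Icc_self hx', Ico_subset_Icc_self hy'⟩, e1.trans e2⟩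

lemma bdd_of_periodic {E : Type} [NormedAddCommGroup E] {G : ℝ × ℝ → E} (hG : Continuous G)
    {c : ℝ} (hc : 0 < c)
    (hx : ∀ x y, G (x + c, y) = G (x, y)) (hy : ∀ x y, G (x, y + c) = G (x, y)) :
    ∃ M : ℝ, ∀ z, ‖G z‖ ≤ M := by
  obtain ⟨M, hM⟩ := ((isCompact_Icc (a := (0:ℝ)) (b := c)).prod
    (isCompact_Icc (a := (0:ℝ)) (b := c))).exists_bound_of_continuousOn hG.continuousOn
  refine ⟨M, fun z => ?_⟩
  obtain ⟨z', hz', e⟩ := exists_rep hc hx hy z
  rw [e]
  exact hM z' hz'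

lemma nice_of_contDiff {F : ℝ × ℝ → ℝ} (hF : ContDiff ℝ 1 F) {c : ℝ} (hc : 0 < c)
    (hx : ∀ x y, F (x + c, y) = F (x, y)) (hy : ∀ x y, F (x, y + c) = F (x, y)) : Nice F := by
  constructor
  · have hshift : ∀ w : ℝ × ℝ, (∀ z, F (z + w) = F z) → ∀ z, fderiv ℝ F (z + w) = fderiv ℝ F z := by
      intro w hw z
      have h1 := fderiv_comp_add_right (𝕜 := ℝ) (f := F) (x := z) w
      rw [← h1]
      congr 1
      funext z
      exact hw z
    obtain ⟨M, hM⟩ := bdd_of_periodic (G := fderiv ℝ F) (hF.continuous_fderiv one_ne_zero) hc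
      (fun x y => by
        have := hshift (c, 0) (fun z => by
          obtain ⟨x, y⟩ := z
          simpa using hx x y) (x, y)
        simpa using this)
      (fun x y => by
        have := hshift (0, c) (fun z => by
          obtain ⟨x, y⟩ := z
          simpa using hy x y) (x, y)
        simpa using this)
    refine ⟨M.toNNReal, lipschitzWith_of_nnnorm_fderiv_le
      (hF.differentiable one_ne_zero) fun z => ?_⟩
    rw [← NNReal.coe_le_coe, coe_nnnorm]
    exact (hM z).trans (Real.le_coe_toNNReal _)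
  · obtain ⟨M, hM⟩ := bdd_of_periodic hF.continuous hc hx hy
    exact ⟨M, fun z => hM z⟩

lemma exists_sol {F : ℝ × ℝ → ℝ} (hF : Nice F) (α p : ℝ) : ∃ X : ℝ → ℝ, X α = p ∧ Sol F X := by
  obtain ⟨K, hK⟩ := hF.lip
  obtain ⟨M, hM⟩ := hF.bdd
  have hl : LipschitzWith (max K 0) (fun z : ℝ × ℝ => (F z, (1:ℝ))) :=
    hK.prodMk (LipschitzWith.const _)
  obtain ⟨γ, h0, h1⟩ := Pool.Agent.GR.Flow.exists_solution (M := ⟨max M 1, by positivity⟩) hl
    (fun z => by
      rw [Prod.norm_def]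
      simp only [norm_one]
      exact max_le_max (hM z) le_rfl) (p, α)
  have h2 : ∀ t, (γ t).2 = α + t := by
    have hd : ∀ t, HasDerivAt (fun t => (γ t).2 - t) 0 t := by
      intro t
      have h3 : HasDerivAt (fun t => (γ t).2) 1 t :=
        (ContinuousLinearMap.snd ℝ ℝ ℝ).hasFDerivAt.comp_hasDerivAt t (h1 t)
      have h4 := h3.sub (hasDerivAt_id t)
      rw [sub_self] at h4
      exact h4
    have hc := is_const_of_deriv_eq_zero (f := fun t => (γ t).2 - t)
      (fun t => (hd t).differentiableAt) (fun t => (hd t).deriv)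
    intro t
    have := hc t 0
    simp only [h0, sub_zero] at this
    linarith
  refine ⟨fun y => (γ (y - α)).1, ?_, fun y => ?_⟩
  · simp only [sub_self, h0]
  · have h3 : HasDerivAt (fun t => (γ t).1) (F (γ (y - α))) (y - α) :=
      (ContinuousLinearMap.fst ℝ ℝ ℝ).hasFDerivAt.comp_hasDerivAt _ (h1 (y - α))
    have h4 : HasDerivAt (fun y : ℝ => y - α) 1 y := (hasDerivAt_id y).sub_const α
    have h5 := h3.comp y h4
    rw [mul_one] at h5
    have h6 : γ (y - α) = ((γ (y - α)).1, y) := by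
      ext
      · rfl
      · change (γ (y - α)).2 = y
        rw [h2]; ring
    rw [h6] at h5
    exact h5

lemma approx {F F' : ℝ × ℝ → ℝ} {K : NNReal} (hF : LipschitzWith K F) {X X' : ℝ → ℝ}
    (hX : Sol F X) (hX' : Sol F' X') {α β δ : ℝ} (hαβ : α ≤ β) (h0 : X α = X' α)
    (hδ : ∀ x, ∀ y ∈ Icc α β, |F' (x, y) - F (x, y)| ≤ δ) :
    |X β - X' β| ≤ gronwallBound 0 K δ (β - α) := by
  have h := dist_le_of_approx_trajectories_ODE (v := fun y x => F (x, y)) (K := K)
    (f := X) (g := X') (f' := fun y => F (X y, y)) (g' := fun y => F' (X' y, y))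
    (a := α) (b := β) (εf := 0) (εg := δ) (δ := 0)
    (fun y => by
      have := hF.comp (LipschitzWith.prodMk_right (α := ℝ) (β := ℝ) y)
      rw [mul_one] at this
      exact this)
    (hX.continuous.continuousOn) (fun t _ => (hX t).hasDerivWithinAt)
    (fun t _ => by simp) (hX'.continuous.continuousOn)
    (fun t _ => (hX' t).hasDerivWithinAt)
    (fun t ht => by
      rw [Real.dist_eq]
      exact hδ _ _ (Ico_subset_Icc_self ht))
    (by rw [h0, dist_self]) β ⟨hαβ, le_rfl⟩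
  rw [zero_add, Real.dist_eq] at h
  exact h

lemma sol_unique {F F' : ℝ × ℝ → ℝ} (hF : Nice F) {X X' : ℝ → ℝ}
    (hX : Sol F X) (hX' : Sol F' X') {α β : ℝ} (hαβ : α ≤ β) (h0 : X α = X' α)
    (hδ : ∀ x, ∀ y ∈ Icc α β, F' (x, y) = F (x, y)) : X β = X' β := by
  obtain ⟨K, hK⟩ := hF.lip
  have h := approx hK hX hX' hαβ h0 (δ := 0) (fun x y hy => by rw [hδ x y hy, sub_self, abs_zero])
  have h2 : gronwallBound 0 K 0 (β - α) = 0 := by
    unfold gronwallBound
    split_ifs <;> simp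
  rw [h2] at h
  have h3 := abs_nonpos_iff.1 h
  linarith

/-- end points depend continuously on the right-hand side -/
lemma approx_small {F : ℝ × ℝ → ℝ} (hF : Nice F) {X : ℝ → ℝ} (hX : Sol F X) {α β : ℝ}
    (hαβ : α ≤ β) {ρ : ℝ} (hρ : 0 < ρ) : ∃ δ > 0, ∀ (F' : ℝ × ℝ → ℝ) (X' : ℝ → ℝ), Sol F' X' →
      X α = X' α → (∀ x, ∀ y ∈ Icc α β, |F' (x, y) - F (x, y)| ≤ δ) → |X' β - X β| < ρ := by
  obtain ⟨K, hK⟩ := hF.lip
  have hc : ContinuousAt (fun δ : ℝ => gronwallBound 0 K δ (β - α)) 0 := by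
    unfold gronwallBound
    split_ifs <;> fun_prop
  have h0 : gronwallBound 0 K 0 (β - α) = 0 := by
    unfold gronwallBound
    split_ifs <;> simp
  have h1 : ∀ᶠ δ : ℝ in 𝓝 0, gronwallBound 0 K δ (β - α) < ρ := by
    refine hc.eventually (gt_mem_nhds ?_)
    simp only [h0]
    exact hρ
  obtain ⟨e, he, h2⟩ := Metric.eventually_nhds_iff_ball.1 h1
  refine ⟨e / 2, half_pos he, fun F' X' hX' h3 h4 => ?_⟩
  have h5 := approx hK hX hX' hαβ h3 h4
  rw [abs_sub_comm]
  refine h5.trans_lt (h2 _ ?_)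
  rw [Metric.mem_ball, Real.dist_eq, sub_zero, abs_of_pos (half_pos he)]
  linarith

/-- comparison: a strict supersolution-like boundary -/
lemma trap_le {X : ℝ → ℝ} {F : ℝ × ℝ → ℝ} (hX : Sol F X) {a b c : ℝ} (hab : a ≤ b)
    (h0 : X a ≤ c) (hF : ∀ y ∈ Icc a b, F (c, y) < 0) : X b ≤ c := by
  have h := image_le_of_deriv_right_lt_deriv_boundary (f := X) (f' := fun y => F (X y, y))
    (a := a) (b := b) hX.continuous.continuousOn (fun y _ => (hX y).hasDerivWithinAt)
    (B := fun _ => c) (B' := fun _ => 0) h0 (fun y => hasDerivAt_const y c)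
    (fun y hy he => by
      rw [he]
      exact hF y (Ico_subset_Icc_self hy))
  exact h ⟨hab, le_rfl⟩

lemma trap_ge {X : ℝ → ℝ} {F : ℝ × ℝ → ℝ} (hX : Sol F X) {a b c : ℝ} (hab : a ≤ b)
    (h0 : c ≤ X a) (hF : ∀ y ∈ Icc a b, 0 < F (c, y)) : c ≤ X b := by
  have h := image_le_of_deriv_right_lt_deriv_boundary (f := fun y => - X y)
    (f' := fun y => - F (X y, y))
    (a := a) (b := b) hX.continuous.neg.continuousOn (fun y _ => (hX y).neg.hasDerivWithinAt)
    (B := fun _ => - c) (B' := fun _ => 0) (by simpa using h0) (fun y => hasDerivAt_const y (-c))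
    (fun y hy he => by
      simp only [neg_inj] at he
      rw [he]
      have := hF y (Ico_subset_Icc_self hy)
      linarith)
  have h2 := h ⟨hab, le_rfl⟩
  simp only [neg_le_neg_iff] at h2
  exact h2

/-- comparison of a solution and a supersolution -/
lemma compare {F : ℝ × ℝ → ℝ} {K : NNReal} (hF : LipschitzWith K F) {u v u' : ℝ → ℝ}
    (hv : Sol F v) (hu : ∀ y, HasDerivAt u (u' y) y) {a b : ℝ} (hab : a ≤ b)
    (hle : ∀ y ∈ Icc a b, F (u y, y) ≤ u' y) (h0 : v a ≤ u a) : v b ≤ u b := by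
  have hKb : ∀ δ > 0, v b - u b ≤ δ * Real.exp ((K + 1) * (b - a)) := by
    intro δ hδ
    have h := image_le_of_deriv_right_lt_deriv_boundary (f := fun y => v y - u y)
      (f' := fun y => F (v y, y) - u' y) (a := a) (b := b)
      ((hv.continuous.sub (continuous_iff_continuousAt.2 fun y => (hu y).continuousAt)).continuousOn)
      (fun y _ => ((hv y).sub (hu y)).hasDerivWithinAt)
      (B := fun y => δ * Real.exp ((K + 1) * (y - a)))
      (B' := fun y => δ * (Real.exp ((K + 1) * (y - a)) * (K + 1))) (by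
        simp only [sub_self, mul_zero, Real.exp_zero, mul_one]
        linarith)
      (fun y => by
        have h1 : HasDerivAt (fun y : ℝ => ((K:ℝ) + 1) * (y - a)) (K + 1) y := by
          simpa using ((hasDerivAt_id y).sub_const a).const_mul ((K:ℝ) + 1)
        exact (h1.exp).const_mul δ)
      (fun y hy he => by
        have h1 := hle y (Ico_subset_Icc_self hy)
        have h2 : |F (v y, y) - F (u y, y)| ≤ K * |v y - u y| := by
          have := hF.dist_le_mul (v y, y) (u y, y)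
          rw [Real.dist_eq] at this
          refine this.trans ?_
          rw [Prod.dist_eq]
          simp [Real.dist_eq]
        have hpos : 0 < δ * Real.exp ((K + 1) * (y - a)) := by positivity
        rw [he, abs_of_pos hpos] at h2
        have h3 := (abs_le.1 h2).2
        have h4 : δ * (Real.exp ((K + 1) * (y - a)) * (K + 1)) =
          K * (δ * Real.exp ((K + 1) * (y - a))) + δ * Real.exp ((K + 1) * (y - a)) := by ring
        rw [h4]
        linarith)
    exact h ⟨hab, le_rfl⟩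
  have hE : 0 < Real.exp ((K + 1) * (b - a)) := Real.exp_pos _
  by_contra hcon
  push Not at hcon
  have h1 := hKb ((v b - u b) / (2 * Real.exp ((K + 1) * (b - a)))) (by
    apply div_pos <;> linarith)
  have h2 : (v b - u b) / (2 * Real.exp ((K + 1) * (b - a))) * Real.exp ((K + 1) * (b - a)) =
      (v b - u b) / 2 := by
    field_simp
  rw [h2] at h1
  linarith

lemma Sol.shift {F : ℝ × ℝ → ℝ} {X : ℝ → ℝ} (hX : Sol F X) {c : ℝ}
    (hx : ∀ x y, F (x + c, y) = F (x, y)) : Sol F (fun y => X y + c) := by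
  intro y
  change HasDerivAt _ (F (X y + c, y)) y
  rw [hx]
  exact (hX y).add_const c

end

end Pool.Agent.R194.GC
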