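import Pool.Agent.R194.GC.Main

set_option autoImplicit false
open Topology Filter Set

namespace Pool.Agent.R194.GC

noncomputable section

def Dx (f : ℝ × ℝ × ℝ → ℝ) (z : ℝ × ℝ) : ℝ := fderiv ℝ f (z.1, z.2, 0) (1, 0, 0)
def Dy (f : ℝ × ℝ × ℝ → ℝ) (z : ℝ × ℝ) : ℝ := fderiv ℝ f (z.1, z.2, 0) (0, 1, 0)
def Dxx (f : ℝ × ℝ × ℝ → ℝ) (z : ℝ × ℝ) : ℝ :=
  fderiv ℝ (fderiv ℝ f) (z.1, z.2, 0) (1, 0, 0) (1, 0, 0)

lemma hasDerivAt_x (y x : ℝ) :
    HasDerivAt (fun x : ℝ => ((x, y, 0) : ℝ × ℝ × ℝ)) ((1, 0, 0) : ℝ × ℝ × ℝ) x :=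
  (hasDerivAt_id x).prodMk ((hasDerivAt_const x y).prodMk (hasDerivAt_const x (0:ℝ)))

lemma hasDerivAt_y (x y : ℝ) :
    HasDerivAt (fun y : ℝ => ((x, y, 0) : ℝ × ℝ × ℝ)) ((0, 1, 0) : ℝ × ℝ × ℝ) y :=
  (hasDerivAt_const y x).prodMk ((hasDerivAt_id y).prodMk (hasDerivAt_const y (0:ℝ)))

section

variable {f : ℝ × ℝ × ℝ → ℝ} (hf : ContDiff ℝ 2 f)

include hf

lemma hd_x (x y : ℝ) : HasDerivAt (fun x => f (x, y, 0)) (Dx f (x, y)) x :=
  ((hf.differentiable two_ne_zero) (x, y, 0)).hasFDerivAt.comp_hasDerivAt x (hasDerivAt_x y x)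

lemma hd_y (x y : ℝ) : HasDerivAt (fun y => f (x, y, 0)) (Dy f (x, y)) y :=
  ((hf.differentiable two_ne_zero) (x, y, 0)).hasFDerivAt.comp_hasDerivAt y (hasDerivAt_y x y)

lemma hd_xx (x y : ℝ) : HasDerivAt (fun x => Dx f (x, y)) (Dxx f (x, y)) x := by
  have h1 : ContDiff ℝ 1 (fderiv ℝ f) := hf.fderiv_right (by norm_num)
  have h2 := ((h1.differentiable one_ne_zero) (x, y, 0)).hasFDerivAt.comp_hasDerivAt x
    (hasDerivAt_x y x)
  exact h2.clm_apply (hasDerivAt_const x ((1, 0, 0) : ℝ × ℝ × ℝ)) |>.congr_deriv (by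
    simp [Dxx])

lemma deriv_x (x y : ℝ) : deriv (fun x => f (x, y, 0)) x = Dx f (x, y) := (hd_x hf x y).deriv

lemma iter_x (x y : ℝ) : iteratedDeriv 2 (fun x => f (x, y, 0)) x = Dxx f (x, y) := by
  rw [iteratedDeriv_succ, iteratedDeriv_one]
  have : deriv (fun x => f (x, y, 0)) = fun x => Dx f (x, y) := by
    funext x; exact deriv_x hf x y
  rw [this]
  exact (hd_xx hf x y).deriv

end

/-- the half-width of the strip that contains the slow curve -/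
def cc : ℝ := 5 * Real.pi / 12

/-- conditions for an oval -/
structure OvalCond (f : ℝ × ℝ × ℝ → ℝ) (A₀ A₁ B₀ B₁ : ℝ) : Prop where
  xx : ∀ z ∈ Icc (-cc) cc ×ˢ Icc A₀ B₁, 0 < Dxx f z
  out : ∀ z ∈ Icc cc (2 * Real.pi - cc) ×ˢ Icc A₀ B₁, 0 < f (z.1, z.2, 0)
  bot : ∀ z ∈ Icc (-cc) cc ×ˢ Icc A₀ A₀, 0 < f (z.1, z.2, 0)
  top : ∀ z ∈ Icc (-cc) cc ×ˢ Icc B₁ B₁, 0 < f (z.1, z.2, 0)
  mid : ∀ z ∈ Icc (0:ℝ) 0 ×ˢ Icc A₁ B₀, 0 < - f (z.1, z.2, 0)
  dA : ∀ z ∈ Icc (-cc) cc ×ˢ Icc A₀ A₁, 0 < - Dy f z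
  dB : ∀ z ∈ Icc (-cc) cc ×ˢ Icc B₀ B₁, 0 < Dy f z

lemma cc_pos : 0 < cc := by unfold cc; positivity

lemma cc_lt : cc < Real.pi := by unfold cc; linarith [Real.pi_pos]

lemma anti_of_hasDeriv {D D' : ℝ → ℝ} {a b : ℝ} (hab : a < b) (hD : ∀ y, HasDerivAt D (D' y) y)
    (h : ∀ y ∈ Icc a b, 0 < D' y) : D a < D b := by
  obtain ⟨c, hc, h2⟩ := exists_hasDerivAt_eq_slope D D' hab
    (continuous_iff_continuousAt.2 fun y => (hD y).continuousAt).continuousOn (fun y _ => hD y)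
  have h3 := h c (Ioo_subset_Icc_self hc)
  rw [h2] at h3
  have h4 : 0 < b - a := by linarith
  have h5 := (div_pos_iff_of_pos_right h4).1 h3
  linarith

section

variable {f : ℝ × ℝ × ℝ → ℝ} (hf : ContDiff ℝ 2 f) {A₀ A₁ B₀ B₁ : ℝ}
  (hper : ∀ x y e, f (x + 2 * Real.pi, y, e) = f (x, y, e)) (hA : A₀ < A₁) (hAB : A₁ < B₀)
  (hB : B₀ < B₁) (H : OvalCond f A₀ A₁ B₀ B₁)

/-- nonpositive points -/
def KK (f : ℝ × ℝ × ℝ → ℝ) (y : ℝ) : Set ℝ := {x | x ∈ Icc (-cc) cc ∧ f (x, y, 0) ≤ 0}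

include hf

lemma contf : Continuous (fun z : ℝ × ℝ => f (z.1, z.2, 0)) :=
  hf.continuous.comp (by fun_prop)

lemma contfx (y : ℝ) : Continuous (fun x : ℝ => f (x, y, 0)) :=
  hf.continuous.comp (by fun_prop)

lemma contfy (x : ℝ) : Continuous (fun y : ℝ => f (x, y, 0)) :=
  hf.continuous.comp (by fun_prop)

lemma KK_compact (y : ℝ) : IsCompact (KK f y) := by
  have h1 : KK f y = Icc (-cc) cc ∩ {x | f (x, y, 0) ≤ 0} := rfl
  rw [h1]
  exact isCompact_Icc.inter_right (isClosed_le (contfx hf y) continuous_const)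

include H in
/-- strictly between two zeros (or nonpositive points) the function is negative -/
lemma between {y : ℝ} (hy : y ∈ Icc A₀ B₁) {x₁ x₂ x : ℝ} (h1 : x₁ ∈ KK f y) (h2 : x₂ ∈ KK f y)
    (hx1 : x₁ < x) (hx2 : x < x₂) : f (x, y, 0) < 0 := by
  have hconv : StrictConvexOn ℝ (Icc (-cc) cc) (fun x => f (x, y, 0)) := by
    refine strictConvexOn_of_deriv2_pos (convex_Icc _ _) (contfx hf y).continuousOn
      fun x hx => ?_
    have h3 := iter_x hf x y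
    rw [iteratedDeriv_eq_iterate] at h3
    rw [h3]
    exact H.xx (x, y) ⟨interior_subset hx, hy⟩
  have h12 : x₁ < x₂ := hx1.trans hx2
  obtain ⟨s, t, hs, ht, hst, he⟩ := (openSegment_eq_Ioo h12 ▸ (⟨hx1, hx2⟩ : x ∈ Ioo x₁ x₂) :
    x ∈ openSegment ℝ x₁ x₂)
  have h4 := hconv.2 h1.1 h2.1 h12.ne hs ht hst
  rw [he] at h4
  simp only [smul_eq_mul] at h4
  have h5 := h1.2
  have h6 := h2.2
  have h7 := mul_nonneg hs.le (sub_nonneg.2 h5)
  have h8 := mul_nonneg ht.le (sub_nonneg.2 h6)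
  nlinarith

include hper H in
lemma pos_edge {y : ℝ} (hy : y ∈ Icc A₀ B₁) : 0 < f (cc, y, 0) ∧ 0 < f (-cc, y, 0) := by
  constructor
  · exact H.out (cc, y) ⟨⟨le_rfl, by linarith [cc_lt]⟩, hy⟩
  · rw [← hper]
    have h1 : -cc + 2 * Real.pi = 2 * Real.pi - cc := by ring
    rw [h1]
    exact H.out (2 * Real.pi - cc, y) ⟨⟨by linarith [cc_lt], le_rfl⟩, hy⟩

/-- the branches -/
def xm (f : ℝ × ℝ × ℝ → ℝ) (y : ℝ) : ℝ := sInf (KK f y)
def xp (f : ℝ × ℝ × ℝ → ℝ) (y : ℝ) : ℝ := sSup (KK f y)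

lemma xm_mem {y : ℝ} (h : (KK f y).Nonempty) : xm f y ∈ KK f y :=
  (KK_compact hf y).sInf_mem h

lemma xp_mem {y : ℝ} (h : (KK f y).Nonempty) : xp f y ∈ KK f y :=
  (KK_compact hf y).sSup_mem h

lemma xm_le {y x : ℝ} (h : x ∈ KK f y) : xm f y ≤ x :=
  csInf_le (KK_compact hf y).bddBelow h

lemma le_xp {y x : ℝ} (h : x ∈ KK f y) : x ≤ xp f y :=
  le_csSup (KK_compact hf y).bddAbove h

include hper H in
lemma xm_zero {y : ℝ} (hy : y ∈ Icc A₀ B₁) (h : (KK f y).Nonempty) : f (xm f y, y, 0) = 0 := by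
  have h1 := xm_mem hf h
  refine le_antisymm h1.2 ?_
  by_contra hcon
  push Not at hcon
  have h2 : -cc < xm f y := by
    rcases h1.1.1.lt_or_eq with h3 | h3
    · exact h3
    · rw [← h3] at hcon
      exact absurd (pos_edge hf hper H hy).2 (not_lt.2 hcon.le)
  have h3 : ∀ᶠ x in 𝓝 (xm f y), f (x, y, 0) < 0 :=
    (contfx hf y).continuousAt.eventually (gt_mem_nhds hcon)
  have h4 : ∀ᶠ x in 𝓝[<] (xm f y), f (x, y, 0) < 0 ∧ -cc < x ∧ x < xm f y :=
    (h3.filter_mono nhdsWithin_le_nhds).and (Ioo_mem_nhdsLT h2)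
  obtain ⟨x, h5, h6, h7⟩ := h4.exists
  have h8 := xm_le hf (x := x) ⟨⟨h6.le, h7.le.trans h1.1.2⟩, h5.le⟩
  linarith

include hper H in
lemma xp_zero {y : ℝ} (hy : y ∈ Icc A₀ B₁) (h : (KK f y).Nonempty) : f (xp f y, y, 0) = 0 := by
  have h1 := xp_mem hf h
  refine le_antisymm h1.2 ?_
  by_contra hcon
  push Not at hcon
  have h2 : xp f y < cc := by
    rcases h1.1.2.lt_or_eq with h3 | h3
    · exact h3
    · rw [h3] at hcon
      exact absurd (pos_edge hf hper H hy).1 (not_lt.2 hcon.le)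
  have h3 : ∀ᶠ x in 𝓝 (xp f y), f (x, y, 0) < 0 :=
    (contfx hf y).continuousAt.eventually (gt_mem_nhds hcon)
  have h4 : ∀ᶠ x in 𝓝[>] (xp f y), f (x, y, 0) < 0 ∧ xp f y < x ∧ x < cc :=
    (h3.filter_mono nhdsWithin_le_nhds).and (Ioo_mem_nhdsGT h2)
  obtain ⟨x, h5, h6, h7⟩ := h4.exists
  have h8 := le_xp hf (x := x) ⟨⟨h1.1.1.trans h6.le, h7.le⟩, h5.le⟩
  linarith

include H in
/-- the zeros in the strip are the two branches -/
lemma zero_cases {y x : ℝ} (hy : y ∈ Icc A₀ B₁) (hx : x ∈ Icc (-cc) cc) (h0 : f (x, y, 0) = 0) :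
    x = xm f y ∨ x = xp f y := by
  have h1 : x ∈ KK f y := ⟨hx, h0.le⟩
  by_contra hcon
  push Not at hcon
  have h2 := lt_of_le_of_ne (xm_le hf h1) hcon.1.symm
  have h3 := lt_of_le_of_ne (le_xp hf h1) hcon.2
  have h4 := between hf H hy (xm_mem hf ⟨x, h1⟩) (xp_mem hf ⟨x, h1⟩) h2 h3
  linarith

/-- semicontinuity of the branches -/
lemma lsc_xm {y₀ t : ℝ} (ht : t < xm f y₀) :
    ∀ᶠ y in 𝓝 y₀, (KK f y).Nonempty → t < xm f y := by
  have h1 : ∀ᶠ y in 𝓝 y₀, ∀ x ∈ Icc (-cc) (min t cc), 0 < f (x, y, 0) := by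
    refine isCompact_Icc.eventually_forall_of_forall_eventually fun x hx => ?_
    have h2 : 0 < f (x, y₀, 0) := by
      by_contra hcon
      push Not at hcon
      have := xm_le hf (x := x) ⟨⟨hx.1, hx.2.trans (min_le_right _ _)⟩, hcon⟩
      linarith [hx.2.trans (min_le_left _ _)]
    have hc : Continuous (fun z : ℝ × ℝ => f (z.2, z.1, 0)) := hf.continuous.comp (by fun_prop)
    exact hc.continuousAt.eventually (lt_mem_nhds (a := 0) h2)
  filter_upwards [h1] with y hy hne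
  by_contra hcon
  push Not at hcon
  have h3 := xm_mem hf hne
  have h4 := hy _ ⟨h3.1.1, le_min hcon h3.1.2⟩
  linarith [h3.2]

lemma usc_xp {y₀ t : ℝ} (ht : xp f y₀ < t) :
    ∀ᶠ y in 𝓝 y₀, (KK f y).Nonempty → xp f y < t := by
  have h1 : ∀ᶠ y in 𝓝 y₀, ∀ x ∈ Icc (max t (-cc)) cc, 0 < f (x, y, 0) := by
    refine isCompact_Icc.eventually_forall_of_forall_eventually fun x hx => ?_
    have h2 : 0 < f (x, y₀, 0) := by
      by_contra hcon
      push Not at hcon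
      have := le_xp hf (x := x) ⟨⟨(le_max_right _ _).trans hx.1, hx.2⟩, hcon⟩
      linarith [(le_max_left _ _).trans hx.1]
    have hc : Continuous (fun z : ℝ × ℝ => f (z.2, z.1, 0)) := hf.continuous.comp (by fun_prop)
    exact hc.continuousAt.eventually (lt_mem_nhds (a := 0) h2)
  filter_upwards [h1] with y hy hne
  by_contra hcon
  push Not at hcon
  have h3 := xp_mem hf hne
  have h4 := hy _ ⟨max_le hcon h3.1.1, h3.1.2⟩
  linarith [h3.2]

/-- points of negativity persist -/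
lemma neg_ev {y₀ x : ℝ} (h : f (x, y₀, 0) < 0) (hx : x ∈ Icc (-cc) cc) :
    ∀ᶠ y in 𝓝 y₀, x ∈ KK f y := by
  filter_upwards [(contfy hf x).continuousAt.eventually (gt_mem_nhds h)] with y hy
  exact ⟨hx, hy.le⟩

include hf hper hA hAB hB H

/-- **existence of the oval** -/
lemma exists_oval : ∃ a b : ℝ, A₀ < a ∧ a < A₁ ∧ B₀ < b ∧ b < B₁ ∧ Oval f a b (xm f) (xp f) ∧
    (∀ y ∈ Icc A₀ B₁, y < a ∨ b < y → ∀ x, f (x, y, 0) ≠ 0) := by
  have hcc := cc_pos
  have h0cc : (0:ℝ) ∈ Icc (-cc) cc := ⟨by linarith, hcc.le⟩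
  -- the set of levels
  set S : Set ℝ := {y | y ∈ Icc A₀ B₁ ∧ (KK f y).Nonempty} with hS
  have hSc : IsCompact S := by
    have h1 : S = Prod.snd '' ((Icc (-cc) cc ×ˢ Icc A₀ B₁) ∩ {z : ℝ × ℝ | f (z.1, z.2, 0) ≤ 0}) := by
      ext y
      constructor
      · rintro ⟨h2, x, h3, h4⟩
        exact ⟨(x, y), ⟨⟨h3, h2⟩, h4⟩, rfl⟩
      · rintro ⟨⟨x, y'⟩, ⟨⟨h3, h2⟩, h4⟩, rfl⟩
        exact ⟨h2, x, h3, h4⟩
    rw [h1]
    exact ((isCompact_Icc.prod isCompact_Icc).inter_right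
      (isClosed_le (contf hf) continuous_const)).image continuous_snd
  have hmid : ∀ y ∈ Icc A₁ B₀, f (0, y, 0) < 0 := fun y hy => by
    have := H.mid (0, y) ⟨⟨le_rfl, le_rfl⟩, hy⟩
    simp only at this
    linarith
  have hA1S : A₁ ∈ S := ⟨⟨hA.le, by linarith⟩, 0, h0cc, (hmid A₁ ⟨le_rfl, hAB.le⟩).le⟩
  have hB0S : B₀ ∈ S := ⟨⟨by linarith, hB.le⟩, 0, h0cc, (hmid B₀ ⟨hAB.le, le_rfl⟩).le⟩
  set a := sInf S with ha
  set b := sSup S with hb
  have haS : a ∈ S := hSc.sInf_mem ⟨_, hA1S⟩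
  have hbS : b ∈ S := hSc.sSup_mem ⟨_, hA1S⟩
  have hleast : ∀ y ∈ S, a ≤ y := fun y hy => csInf_le hSc.bddBelow hy
  have hgreat : ∀ y ∈ S, y ≤ b := fun y hy => le_csSup hSc.bddAbove hy
  have ha0 : A₀ < a := by
    rcases haS.1.1.lt_or_eq with h | h
    · exact h
    · obtain ⟨x, hx, hx2⟩ := haS.2
      have := H.bot (x, A₀) ⟨hx, ⟨le_rfl, le_rfl⟩⟩
      simp only at this
      rw [← h] at hx2
      linarith
  have hb1 : b < B₁ := by
    rcases hbS.1.2.lt_or_eq with h | h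
    · exact h
    · obtain ⟨x, hx, hx2⟩ := hbS.2
      have := H.top (x, B₁) ⟨hx, ⟨le_rfl, le_rfl⟩⟩
      simp only at this
      rw [h] at hx2
      linarith
  have ha1 : a < A₁ := by
    have h1 : ∀ᶠ y in 𝓝[<] A₁, (0:ℝ) ∈ KK f y ∧ A₀ < y ∧ y < A₁ :=
      ((neg_ev hf (hmid A₁ ⟨le_rfl, hAB.le⟩) h0cc).filter_mono nhdsWithin_le_nhds).and
        (Ioo_mem_nhdsLT hA)
    obtain ⟨y, h2, h3, h4⟩ := h1.exists
    exact (hleast y ⟨⟨h3.le, by linarith⟩, 0, h2⟩).trans_lt h4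
  have hb0 : B₀ < b := by
    have h1 : ∀ᶠ y in 𝓝[>] B₀, (0:ℝ) ∈ KK f y ∧ B₀ < y ∧ y < B₁ :=
      ((neg_ev hf (hmid B₀ ⟨hAB.le, le_rfl⟩) h0cc).filter_mono nhdsWithin_le_nhds).and
        (Ioo_mem_nhdsGT hB)
    obtain ⟨y, h2, h3, h4⟩ := h1.exists
    exact h3.trans_le (hgreat y ⟨⟨by linarith, h4.le⟩, 0, h2⟩)
  have hab : a < b := by linarith
  -- interior levels have negative points
  have hneg : ∀ y ∈ Ioo a b, ∃ x ∈ Icc (-cc) cc, f (x, y, 0) < 0 := by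
    intro y hy
    rcases lt_or_ge y A₁ with h1 | h1
    · obtain ⟨x, hx, hx2⟩ := haS.2
      refine ⟨x, hx, ?_⟩
      have := anti_of_hasDeriv (D := fun y => - f (x, y, 0)) (D' := fun y => - Dy f (x, y)) hy.1
        (fun y => (hd_y hf x y).neg) (fun y' hy' =>
          H.dA (x, y') ⟨hx, ⟨by linarith [hy'.1], by linarith [hy'.2]⟩⟩)
      linarith
    · rcases le_or_gt y B₀ with h2 | h2
      · exact ⟨0, h0cc, hmid y ⟨h1, h2⟩⟩
      · obtain ⟨x, hx, hx2⟩ := hbS.2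
        refine ⟨x, hx, ?_⟩
        have := anti_of_hasDeriv (D := fun y => f (x, y, 0)) (D' := fun y => Dy f (x, y)) hy.2
          (fun y => hd_y hf x y) (fun y' hy' =>
            H.dB (x, y') ⟨hx, ⟨by linarith [hy'.1], by linarith [hy'.2]⟩⟩)
        linarith
  have hne : ∀ y ∈ Icc a b, (KK f y).Nonempty := by
    intro y hy
    rcases hy.1.lt_or_eq with h1 | h1
    · rcases hy.2.lt_or_eq with h2 | h2
      · obtain ⟨x, hx, hx2⟩ := hneg y ⟨h1, h2⟩
        exact ⟨x, hx, hx2.le⟩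
      · rw [h2]; exact hbS.2
    · rw [← h1]; exact haS.2
  have hin : ∀ y ∈ Icc a b, y ∈ Icc A₀ B₁ := fun y hy =>
    ⟨ha0.le.trans hy.1, hy.2.trans hb1.le⟩
  -- nonnegativity at the ends
  have hna : ∀ x ∈ Icc (-cc) cc, 0 ≤ f (x, a, 0) := by
    intro x hx
    by_contra hcon
    push Not at hcon
    have h1 : ∀ᶠ y in 𝓝[<] a, x ∈ KK f y ∧ A₀ < y ∧ y < a :=
      ((neg_ev hf hcon hx).filter_mono nhdsWithin_le_nhds).and (Ioo_mem_nhdsLT ha0)
    obtain ⟨y, h2, h3, h4⟩ := h1.exists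
    have := hleast y ⟨⟨h3.le, by linarith⟩, x, h2⟩
    linarith
  have hnb : ∀ x ∈ Icc (-cc) cc, 0 ≤ f (x, b, 0) := by
    intro x hx
    by_contra hcon
    push Not at hcon
    have h1 : ∀ᶠ y in 𝓝[>] b, x ∈ KK f y ∧ b < y ∧ y < B₁ :=
      ((neg_ev hf hcon hx).filter_mono nhdsWithin_le_nhds).and (Ioo_mem_nhdsGT hb1)
    obtain ⟨y, h2, h3, h4⟩ := h1.exists
    have := hgreat y ⟨⟨by linarith, h4.le⟩, x, h2⟩
    linarith
  have hend : ∀ y ∈ Icc a b, (∀ x ∈ Icc (-cc) cc, 0 ≤ f (x, y, 0)) → xp f y = xm f y := by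
    intro y hy h1
    by_contra hcon
    have h2 := xm_mem hf (hne y hy)
    have h3 : xm f y < xp f y := lt_of_le_of_ne (le_xp hf h2) (fun h => hcon h.symm)
    obtain ⟨x, h4, h5⟩ := exists_between h3
    have h6 := between hf H (hin y hy) h2 (xp_mem hf (hne y hy)) h4 h5
    have h7 := h1 x ⟨h2.1.1.trans h4.le, h5.le.trans (xp_mem hf (hne y hy)).1.2⟩
    linarith
  have hea := hend a ⟨le_rfl, hab.le⟩ hna
  have heb := hend b ⟨hab.le, le_rfl⟩ hnb
  have hlt : ∀ y ∈ Ioo a b, xm f y < xp f y := by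
    intro y hy
    obtain ⟨x, hx, hx2⟩ := hneg y hy
    have h1 := xm_le hf (x := x) ⟨hx, hx2.le⟩
    have h2 := le_xp hf (x := x) ⟨hx, hx2.le⟩
    rcases h1.lt_or_eq with h3 | h3
    · exact h3.trans_le h2
    · have := xm_zero hf hper H (hin y (Ioo_subset_Icc_self hy)) ⟨x, hx, hx2.le⟩
      rw [h3] at this
      linarith
  -- continuity
  have hcm : ContinuousOn (xm f) (Icc a b) := by
    intro y hy
    rw [ContinuousWithinAt, tendsto_order]
    constructor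
    · intro t ht
      rw [eventually_nhdsWithin_iff]
      filter_upwards [lsc_xm hf ht] with y' h1 h2
      exact h1 (hne y' h2)
    · intro t ht
      rw [eventually_nhdsWithin_iff]
      by_cases hc : xp f y = xm f y
      · rw [← hc] at ht
        filter_upwards [usc_xp hf ht] with y' h1 h2
        exact (xm_le hf (xp_mem hf (hne y' h2))).trans_lt (h1 (hne y' h2))
      · have h2 := xm_mem hf (hne y hy)
        have h2' := xp_mem hf (hne y hy)
        have h3 : xm f y < xp f y := lt_of_le_of_ne (le_xp hf h2) (fun h => hc h.symm)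
        obtain ⟨x, h4, h5⟩ := exists_between (lt_min ht h3)
        have h6 := between hf H (hin y hy) h2 h2' h4 (h5.trans_le (min_le_right _ _))
        have hx : x ∈ Icc (-cc) cc := ⟨h2.1.1.trans h4.le,
          (h5.trans_le (min_le_right _ _)).le.trans h2'.1.2⟩
        filter_upwards [neg_ev hf h6 hx] with y' h7 _
        exact (xm_le hf h7).trans_lt (h5.trans_le (min_le_left _ _))
  have hcp : ContinuousOn (xp f) (Icc a b) := by
    intro y hy
    rw [ContinuousWithinAt, tendsto_order]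
    constructor
    · intro t ht
      rw [eventually_nhdsWithin_iff]
      by_cases hc : xp f y = xm f y
      · rw [hc] at ht
        filter_upwards [lsc_xm hf ht] with y' h1 h2
        exact (h1 (hne y' h2)).trans_le (le_xp hf (xm_mem hf (hne y' h2)))
      · have h2 := xm_mem hf (hne y hy)
        have h2' := xp_mem hf (hne y hy)
        have h3 : xm f y < xp f y := lt_of_le_of_ne (le_xp hf h2) (fun h => hc h.symm)
        obtain ⟨x, h4, h5⟩ := exists_between (max_lt ht h3)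
        have h6 := between hf H (hin y hy) h2 h2' ((le_max_right _ _).trans_lt h4) h5
        have hx : x ∈ Icc (-cc) cc := ⟨h2.1.1.trans ((le_max_right _ _).trans_lt h4).le,
          h5.le.trans h2'.1.2⟩
        filter_upwards [neg_ev hf h6 hx] with y' h7 _
        exact ((le_max_left _ _).trans_lt h4).trans_le (le_xp hf h7)
    · intro t ht
      rw [eventually_nhdsWithin_iff]
      filter_upwards [usc_xp hf ht] with y' h1 h2
      exact h1 (hne y' h2)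
  -- derivatives
  have hmono : ∀ y ∈ Icc a b, ∀ x₁ ∈ Icc (-cc) cc, ∀ x₂ ∈ Icc (-cc) cc, x₁ < x₂ →
      Dx f (x₁, y) < Dx f (x₂, y) := by
    intro y hy x₁ h1 x₂ h2 h12
    exact anti_of_hasDeriv (D := fun x => Dx f (x, y)) (D' := fun x => Dxx f (x, y)) h12
      (fun x => hd_xx hf x y) (fun x hx =>
        H.xx (x, y) ⟨⟨h1.1.trans hx.1, hx.2.trans h2.2⟩, hin y hy⟩)
  have hderiv : ∀ y ∈ Ioo a b, Dx f (xm f y, y) < 0 ∧ 0 < Dx f (xp f y, y) := by
    intro y hy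
    have hy' := Ioo_subset_Icc_self hy
    have h1 := xm_mem hf (hne y hy')
    have h2 := xp_mem hf (hne y hy')
    obtain ⟨c, hc, h3⟩ := exists_hasDerivAt_eq_zero (f := fun x => f (x, y, 0))
      (f' := fun x => Dx f (x, y)) (hlt y hy) (contfx hf y).continuousOn
      (by
        change f (xm f y, y, 0) = f (xp f y, y, 0)
        rw [xm_zero hf hper H (hin y hy') (hne y hy'), xp_zero hf hper H (hin y hy') (hne y hy')])
      (fun x _ => hd_x hf x y)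
    have hcI : c ∈ Icc (-cc) cc := ⟨h1.1.1.trans hc.1.le, hc.2.le.trans h2.1.2⟩
    have h4 := hmono y hy' _ h1.1 _ hcI hc.1
    have h5 := hmono y hy' _ hcI _ h2.1 hc.2
    exact ⟨by linarith, by linarith⟩
  have hfold : ∀ y ∈ Icc a b, (∀ x ∈ Icc (-cc) cc, 0 ≤ f (x, y, 0)) → Dx f (xm f y, y) = 0 := by
    intro y hy h1
    have h2 := xm_mem hf (hne y hy)
    have h3 := xm_zero hf hper H (hin y hy) (hne y hy)
    have h4 := pos_edge hf hper H (hin y hy)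
    have h5 : -cc < xm f y := by
      rcases h2.1.1.lt_or_eq with h | h
      · exact h
      · rw [← h] at h3; linarith [h4.2]
    have h6 : xm f y < cc := by
      rcases h2.1.2.lt_or_eq with h | h
      · exact h
      · rw [h] at h3; linarith [h4.1]
    have h7 : IsLocalMin (fun x => f (x, y, 0)) (xm f y) := by
      filter_upwards [Icc_mem_nhds h5 h6] with x hx
      rw [h3]
      exact h1 x hx
    exact h7.hasDerivAt_eq_zero (hd_x hf _ _)
  -- zeros outside the strip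
  have hper0 : ∀ (k : ℤ) x y, f (x + k * (2 * Real.pi), y, 0) = f (x, y, 0) := by
    intro k x y
    have h : Function.Periodic (fun x => f (x, y, 0)) (2 * Real.pi) := fun x => hper x y 0
    exact h.int_mul k x
  have hred : ∀ y ∈ Icc A₀ B₁, ∀ x, f (x, y, 0) = 0 → ∃ k : ℤ, ∃ x' ∈ Icc (-cc) cc,
      x = x' + k * (2 * Real.pi) ∧ f (x', y, 0) = 0 := by
    intro y hy x hx
    have hpi : 0 < 2 * Real.pi := by positivity
    obtain ⟨k, hk⟩ : ∃ k : ℤ, k = ⌊(x + cc) / (2 * Real.pi)⌋ := ⟨_, rfl⟩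
    have k1 := Int.floor_le ((x + cc) / (2 * Real.pi))
    have k2 := Int.lt_floor_add_one ((x + cc) / (2 * Real.pi))
    rw [← hk] at k1 k2
    rw [le_div_iff₀ hpi] at k1
    rw [div_lt_iff₀ hpi] at k2
    have h1 : f (x - k * (2 * Real.pi), y, 0) = 0 := by
      have h2 := hper0 k (x - k * (2 * Real.pi)) y
      rw [sub_add_cancel, hx] at h2
      exact h2.symm
    refine ⟨k, x - k * (2 * Real.pi), ⟨by linarith, ?_⟩, by ring, h1⟩
    by_contra hcon
    push Not at hcon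
    have := H.out (x - k * (2 * Real.pi), y) ⟨⟨hcon.le, by linarith⟩, hy⟩
    simp only at this
    linarith
  refine ⟨a, b, ha0, ha1, hb0, hb1, ?_, ?_⟩
  · refine ⟨hab, hcm, hcp, ⟨0, by simp [hea]⟩, ⟨0, by simp [heb]⟩, ?_, ?_, ?_, ?_, ?_⟩
    · intro y hy x
      constructor
      · intro hx
        obtain ⟨k, x', h1, h2, h3⟩ := hred y (hin y hy) x hx
        rcases zero_cases hf H (hin y hy) h1 h3 with h4 | h4
        · exact ⟨k, Or.inl (by rw [h2, h4])⟩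
        · exact ⟨k, Or.inr (by rw [h2, h4])⟩
      · rintro ⟨k, h1 | h1⟩
        · rw [h1, hper0]; exact xm_zero hf hper H (hin y hy) (hne y hy)
        · rw [h1, hper0]; exact xp_zero hf hper H (hin y hy) (hne y hy)
    · intro y hy
      rw [deriv_x hf]; exact (hderiv y hy).1
    · intro y hy
      rw [deriv_x hf]; exact (hderiv y hy).2
    · have h1 := xm_mem hf (hne a ⟨le_rfl, hab.le⟩)
      refine ⟨?_, ?_, ?_⟩
      · rw [deriv_x hf]; exact hfold a ⟨le_rfl, hab.le⟩ hna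
      · rw [iter_x hf]
        exact (H.xx (xm f a, a) ⟨h1.1, hin a ⟨le_rfl, hab.le⟩⟩).ne'
      · rw [(hd_y hf _ _).deriv]
        have := H.dA (xm f a, a) ⟨h1.1, ⟨ha0.le, ha1.le⟩⟩
        intro h
        rw [h] at this
        simp at this
    · have h1 := xm_mem hf (hne b ⟨hab.le, le_rfl⟩)
      refine ⟨?_, ?_, ?_⟩
      · rw [deriv_x hf]; exact hfold b ⟨hab.le, le_rfl⟩ hnb
      · rw [iter_x hf]
        exact (H.xx (xm f b, b) ⟨h1.1, hin b ⟨hab.le, le_rfl⟩⟩).ne'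
      · rw [(hd_y hf _ _).deriv]
        exact (H.dB (xm f b, b) ⟨h1.1, ⟨hb0.le, hb1.le⟩⟩).ne'
  · intro y hy hor x hx
    obtain ⟨k, x', h1, h2, h3⟩ := hred y hy x hx
    have h4 : y ∈ S := ⟨hy, x', h1, h3.le⟩
    rcases hor with h5 | h5
    · linarith [hleast y h4]
    · linarith [hgreat y h4]

end

end

end Pool.Agent.R194.GC
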