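import Pool.Agent.R194.GC.Ode

set_option autoImplicit false
open Topology Filter Set

namespace Pool.Agent.R194.GC

noncomputable section

/-- data of a slow-fast system on the torus: periodic `C¹` functions of `(x, y, ε)` -/
structure Dat (f g : ℝ × ℝ × ℝ → ℝ) : Prop where
  f1 : ContDiff ℝ 1 f
  g1 : ContDiff ℝ 1 g
  fx : ∀ x y e, f (x + 2 * Real.pi, y, e) = f (x, y, e)
  fy : ∀ x y e, f (x, y + 2 * Real.pi, e) = f (x, y, e)
  gx : ∀ x y e, g (x + 2 * Real.pi, y, e) = g (x, y, e)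
  gy : ∀ x y e, g (x, y + 2 * Real.pi, e) = g (x, y, e)
  gpos : ∀ p, 0 < g p

/-- the slope field `dx/dy` -/
def Fs (f g : ℝ × ℝ × ℝ → ℝ) (e : ℝ) (z : ℝ × ℝ) : ℝ := f (z.1, z.2, e) / (e * g (z.1, z.2, e))

lemma contDiff_emb (e : ℝ) : ContDiff ℝ 1 (fun z : ℝ × ℝ => ((z.1, z.2, e) : ℝ × ℝ × ℝ)) :=
  contDiff_fst.prodMk (contDiff_snd.prodMk contDiff_const)

lemma Dat.nice {f g : ℝ × ℝ × ℝ → ℝ} (hd : Dat f g) {e : ℝ} (he : 0 < e) : Nice (Fs f g e) := by
  refine nice_of_contDiff (c := 2 * Real.pi) ?_ (by positivity) ?_ ?_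
  · unfold Fs
    refine ContDiff.div (hd.f1.comp (contDiff_emb e))
      (contDiff_const.mul (hd.g1.comp (contDiff_emb e))) fun z => ?_
    exact (mul_pos he (hd.gpos _)).ne'
  · intro x y
    simp only [Fs, hd.fx, hd.gx]
  · intro x y
    simp only [Fs, hd.fy, hd.gy]

lemma per_rep {G : ℝ → Prop} {c : ℝ} (hc : 0 < c) (hG : ∀ x, G (x + c) = G x)
    (h : ∀ x ∈ Icc 0 c, G x) (x : ℝ) : G x := by
  have h1 : Function.Periodic G c := hG
  obtain ⟨x', hx', e⟩ := h1.exists_mem_Ico₀ hc x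
  rw [e]
  exact h x' (Ico_subset_Icc_self hx')

lemma mono_of_hasDeriv {D D' : ℝ → ℝ} {a b : ℝ} (hab : a ≤ b) (hD : ∀ y, HasDerivAt D (D' y) y)
    (h : ∀ y ∈ Icc a b, 0 ≤ D' y) : D a ≤ D b := by
  have h1 : MonotoneOn D (Icc a b) := by
    refine monotoneOn_of_deriv_nonneg (convex_Icc a b)
      (continuous_iff_continuousAt.2 fun y => (hD y).continuousAt).continuousOn
      (fun y _ => (hD y).differentiableAt.differentiableWithinAt) fun y hy => ?_
    rw [(hD y).deriv]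
    exact h y (interior_subset hy)
  exact h1 ⟨le_rfl, hab⟩ ⟨hab, le_rfl⟩ hab

/-- a positive push in a region without zeros adds a full turn -/
lemma push_pos {f g : ℝ × ℝ × ℝ → ℝ} (hd : Dat f g) {χ : ℝ → ℝ} (hχ : Continuous χ)
    (hχ0 : ∀ y, 0 ≤ χ y) {α y₁ β : ℝ} (h1 : α < y₁) (h2 : y₁ < β) (hχ1 : 0 < χ y₁)
    (hf : ∀ x, 0 < f (x, y₁, 0)) {σ : ℝ} (hσ : 0 < σ) :
    ∃ ε₀ > 0, ∀ e ∈ Ioo 0 ε₀, ∀ u v : ℝ → ℝ, Sol (Fs (fun p => f p + σ * χ p.2.1) g e) u →
      Sol (Fs f g e) v → u α = v α → v β + 2 * Real.pi ≤ u β := by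
  have hpi : 0 < 2 * Real.pi := by positivity
  set φ : ℝ → ℝ := fun x => g (x, y₁, 0) / f (x, y₁, 0) with hφ
  have hemb : Continuous (fun x : ℝ => ((x, y₁, 0) : ℝ × ℝ × ℝ)) := by fun_prop
  have hfc : Continuous (fun x => f (x, y₁, 0)) := hd.f1.continuous.comp hemb
  have hgc : Continuous (fun x => g (x, y₁, 0)) := hd.g1.continuous.comp hemb
  have hφc : Continuous φ := hgc.div hfc fun x => (hf x).ne'
  have hφpos : ∀ x, 0 < φ x := fun x => div_pos (hd.gpos _) (hf x)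
  obtain ⟨Φ, hΦ0⟩ := (isCompact_Icc (a := (0:ℝ)) (b := 2 * Real.pi)).exists_bound_of_continuousOn
    hφc.continuousOn
  have hΦ : ∀ x, φ x ≤ Φ := by
    refine per_rep hpi (fun x => ?_) fun x hx => ?_
    · simp only [hφ, hd.fx, hd.gx]
    · exact (le_abs_self _).trans (hΦ0 x hx)
  have hΦpos : 0 < Φ := (hφpos 0).trans_le (hΦ 0)
  obtain ⟨B, hB0⟩ := (isCompact_Icc (a := (0:ℝ)) (b := 2 * Real.pi)).exists_bound_of_continuousOn
    hfc.continuousOn
  have hB : ∀ x, f (x, y₁, 0) ≤ B := by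
    refine per_rep hpi (fun x => ?_) fun x hx => ?_
    · simp only [hd.fx]
    · exact (le_abs_self _).trans (hB0 x hx)
  have hBpos : 0 < B := (hf 0).trans_le (hB 0)
  obtain ⟨κ, hκ⟩ : ∃ κ, κ = σ * χ y₁ / (3 * B) := ⟨_, rfl⟩
  have hκ0 : 0 < κ := by rw [hκ]; positivity
  -- uniform estimates near `(y₁, 0)`
  have hev : ∀ᶠ q : ℝ × ℝ in 𝓝 (y₁, 0), ∀ x ∈ Icc (0:ℝ) (2 * Real.pi),
      φ x * (f (x, q) / g (x, q)) < 1 + κ ∧
      1 + 2 * κ < φ x * ((f (x, q) + σ * χ q.1) / g (x, q)) := by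
    refine (isCompact_Icc (a := (0:ℝ)) (b := 2 * Real.pi)).eventually_forall_of_forall_eventually
      fun x _ => ?_
    have c1 : Continuous (fun p : (ℝ × ℝ) × ℝ => ((p.2, p.1) : ℝ × ℝ × ℝ)) := by fun_prop
    have cf : Continuous (fun p : (ℝ × ℝ) × ℝ => f (p.2, p.1)) := hd.f1.continuous.comp c1
    have cg : Continuous (fun p : (ℝ × ℝ) × ℝ => g (p.2, p.1)) := hd.g1.continuous.comp c1
    have cφ : Continuous (fun p : (ℝ × ℝ) × ℝ => φ p.2) := hφc.comp continuous_snd
    have cχ : Continuous (fun p : (ℝ × ℝ) × ℝ => σ * χ p.1.1) :=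
      continuous_const.mul (hχ.comp (continuous_fst.comp continuous_fst))
    have k1 : Continuous (fun p : (ℝ × ℝ) × ℝ => φ p.2 * (f (p.2, p.1) / g (p.2, p.1))) :=
      cφ.mul (cf.div cg fun p => (hd.gpos _).ne')
    have k2 : Continuous (fun p : (ℝ × ℝ) × ℝ =>
        φ p.2 * ((f (p.2, p.1) + σ * χ p.1.1) / g (p.2, p.1))) :=
      cφ.mul ((cf.add cχ).div cg fun p => (hd.gpos _).ne')
    have hfx := hf x
    have hgx := hd.gpos (x, y₁, 0)
    refine (k1.continuousAt.eventually (gt_mem_nhds ?_)).and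
      (k2.continuousAt.eventually (lt_mem_nhds ?_))
    · change φ x * (f (x, y₁, 0) / g (x, y₁, 0)) < 1 + κ
      have : φ x * (f (x, y₁, 0) / g (x, y₁, 0)) = 1 := by
        simp only [hφ]
        field_simp
      rw [this]; linarith
    · change 1 + 2 * κ < φ x * ((f (x, y₁, 0) + σ * χ y₁) / g (x, y₁, 0))
      have e1 : φ x * ((f (x, y₁, 0) + σ * χ y₁) / g (x, y₁, 0)) =
          1 + σ * χ y₁ / f (x, y₁, 0) := by
        simp only [hφ]
        field_simp
      rw [e1]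
      have e2 : 3 * κ ≤ σ * χ y₁ / f (x, y₁, 0) := by
        have : 3 * κ = σ * χ y₁ / B := by rw [hκ]; field_simp
        rw [this]
        exact div_le_div_of_nonneg_left (by positivity) hfx (hB x)
      linarith
  obtain ⟨η, hη, hball⟩ := Metric.eventually_nhds_iff_ball.1 hev
  obtain ⟨η', hη'⟩ : ∃ η', η' = min (η / 2) ((β - y₁) / 2) := ⟨_, rfl⟩
  have hη'0 : 0 < η' := by rw [hη']; exact lt_min (half_pos hη) (by linarith)
  have hη'1 : η' < η := by
    rw [hη']; exact (min_le_left _ _).trans_lt (half_lt_self hη)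
  have hη'2 : y₁ + η' < β := by
    have : η' ≤ (β - y₁) / 2 := by rw [hη']; exact min_le_right _ _
    linarith
  refine ⟨min η (κ * η' / (2 * Real.pi * Φ)), lt_min hη (by positivity), ?_⟩
  intro e he u v hu hv h0
  have he0 : 0 < e := he.1
  have he1 : e < η := he.2.trans_le (min_le_left _ _)
  have he2 : e < κ * η' / (2 * Real.pi * Φ) := he.2.trans_le (min_le_right _ _)
  have hbox : ∀ y ∈ Icc y₁ (y₁ + η'), ∀ x,
      φ x * (f (x, y, e) / g (x, y, e)) ≤ 1 + κ ∧
      1 + 2 * κ ≤ φ x * ((f (x, y, e) + σ * χ y) / g (x, y, e)) := by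
    intro y hy
    have hmem : ((y, e) : ℝ × ℝ) ∈ Metric.ball (y₁, (0:ℝ)) η := by
      rw [Metric.mem_ball, Prod.dist_eq, max_lt_iff]
      constructor
      · rw [Real.dist_eq]
        simp only
        rw [abs_of_nonneg (by linarith [hy.1])]
        linarith [hy.2]
      · rw [Real.dist_eq]
        simp only [sub_zero]
        rw [abs_of_pos he0]
        exact he1
    refine per_rep hpi (fun x => ?_) fun x hx => ?_
    · simp only [hφ, hd.fx, hd.gx]
    · have := hball _ hmem x hx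
      exact ⟨this.1.le, this.2.le⟩
  obtain ⟨K, hK⟩ := (hd.nice he0).lip
  have hge : ∀ x y, Fs f g e (x, y) ≤ Fs (fun p => f p + σ * χ p.2.1) g e (x, y) := by
    intro x y
    simp only [Fs]
    have h3 : 0 < e * g (x, y, e) := mul_pos he0 (hd.gpos _)
    have h4 : 0 ≤ σ * χ y := mul_nonneg hσ.le (hχ0 y)
    exact div_le_div_of_nonneg_right (by linarith) h3.le
  -- step 0
  have s0 : v y₁ ≤ u y₁ :=
    compare hK hv hu h1.le (fun y _ => hge _ _) h0.ge
  -- step 1
  obtain ⟨T, hT⟩ : ∃ T : ℝ → ℝ, ∀ x, HasDerivAt T (φ x) x :=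
    ⟨fun x => ∫ t in (0:ℝ)..x, φ t, fun x =>
      intervalIntegral.integral_hasDerivAt_right (hφc.intervalIntegrable _ _)
        (hφc.stronglyMeasurableAtFilter _ _) hφc.continuousAt⟩
  have hTmono : ∀ a b, a ≤ b → T a ≤ T b := fun a b hab =>
    mono_of_hasDeriv hab hT fun x _ => (hφpos x).le
  have hTlip : ∀ a b, a ≤ b → T b - T a ≤ Φ * (b - a) := by
    intro a b hab
    have h3 := mono_of_hasDeriv (D := fun x => Φ * x - T x) (D' := fun x => Φ - φ x) hab
      (fun x => by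
        have h4 : HasDerivAt (fun x : ℝ => Φ * x) Φ x := by
          simpa using (hasDerivAt_id x).const_mul Φ
        exact h4.sub (hT x))
      (fun x _ => by linarith [hΦ x])
    have : Φ * (b - a) = Φ * b - Φ * a := by ring
    linarith
  have s1 : v (y₁ + η') + 2 * Real.pi ≤ u (y₁ + η') := by
    have h3 := mono_of_hasDeriv (a := y₁) (b := y₁ + η')
      (D := fun y => T (u y) - T (v y) - κ / e * y)
      (D' := fun y => φ (u y) * Fs (fun p => f p + σ * χ p.2.1) g e (u y, y) -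
        φ (v y) * Fs f g e (v y, y) - κ / e) (by linarith)
      (fun y => by
        have h4 : HasDerivAt (fun y : ℝ => κ / e * y) (κ / e) y := by
          simpa using (hasDerivAt_id y).const_mul (κ / e)
        exact (((hT _).comp y (hu y)).sub ((hT _).comp y (hv y))).sub h4)
      (fun y hy => by
        have a1 := (hbox y hy (u y)).2
        have a2 := (hbox y hy (v y)).1
        have e1 : φ (u y) * Fs (fun p => f p + σ * χ p.2.1) g e (u y, y) =
            φ (u y) * ((f (u y, y, e) + σ * χ y) / g (u y, y, e)) / e := by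
          simp only [Fs]
          have := (hd.gpos (u y, y, e)).ne'
          field_simp
        have e2 : φ (v y) * Fs f g e (v y, y) =
            φ (v y) * (f (v y, y, e) / g (v y, y, e)) / e := by
          simp only [Fs]
          have := (hd.gpos (v y, y, e)).ne'
          field_simp
        rw [e1, e2, ← sub_div, ← sub_div]
        apply div_nonneg _ he0.le
        linarith)
    have h4 := hTmono _ _ s0
    have h5 : κ / e * (y₁ + η') = κ / e * y₁ + κ * η' / e := by ring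
    have h6 : 2 * Real.pi * Φ < κ * η' / e := by
      rw [lt_div_iff₀ he0]
      rw [lt_div_iff₀ (by positivity)] at he2
      linarith
    have h7 := hTlip (v (y₁ + η')) (v (y₁ + η') + 2 * Real.pi) (by linarith)
    by_contra hcon
    push Not at hcon
    have h8 := hTmono _ _ hcon.le
    have h9 : Φ * (v (y₁ + η') + 2 * Real.pi - v (y₁ + η')) = 2 * Real.pi * Φ := by ring
    linarith
  -- step 2
  exact compare hK (hv.shift (c := 2 * Real.pi) fun x y => by simp only [Fs, hd.fx, hd.gx]) hu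
    hη'2.le (fun y _ => hge _ _) s1

/-- a negative push in a region without zeros subtracts a full turn -/
lemma push_neg {f g : ℝ × ℝ × ℝ → ℝ} (hd : Dat f g) {χ : ℝ → ℝ} (hχ : Continuous χ)
    (hχ0 : ∀ y, 0 ≤ χ y) {α y₁ β : ℝ} (h1 : α < y₁) (h2 : y₁ < β) (hχ1 : 0 < χ y₁)
    (hf : ∀ x, f (x, y₁, 0) < 0) {σ : ℝ} (hσ : 0 < σ) :
    ∃ ε₀ > 0, ∀ e ∈ Ioo 0 ε₀, ∀ u v : ℝ → ℝ, Sol (Fs (fun p => f p + (-σ) * χ p.2.1) g e) u →
      Sol (Fs f g e) v → u α = v α → u β + 2 * Real.pi ≤ v β := by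
  have hr : ContDiff ℝ 1 (fun p : ℝ × ℝ × ℝ => ((-p.1, p.2) : ℝ × ℝ × ℝ)) :=
    contDiff_fst.neg.prodMk contDiff_snd
  have hd' : Dat (fun p => - f (-p.1, p.2)) (fun p => g (-p.1, p.2)) :=
    { f1 := (hd.f1.comp hr).neg
      g1 := hd.g1.comp hr
      fx := fun x y e => by
        have := hd.fx (-(x + 2 * Real.pi)) y e
        simp only
        rw [← this]; congr 3; ring
      fy := fun x y e => by simp only [hd.fy]
      gx := fun x y e => by
        have := hd.gx (-(x + 2 * Real.pi)) y e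
        simp only
        rw [← this]; congr 2; ring
      gy := fun x y e => by simp only [hd.gy]
      gpos := fun p => hd.gpos _ }
  obtain ⟨ε₀, h3, h4⟩ := push_pos hd' hχ hχ0 h1 h2 hχ1 (fun x => by
    linarith [hf (-x)]) hσ
  refine ⟨ε₀, h3, fun e he u v hu hv h0 => ?_⟩
  have h5 := h4 e he (fun y => - u y) (fun y => - v y) (fun y => ?_) (fun y => ?_) (by
    simp only [h0])
  · linarith
  · have h6 := (hu y).neg
    have e1 : Fs (fun p : ℝ × ℝ × ℝ => - f (-p.1, p.2) + σ * χ p.2.1)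
        (fun p : ℝ × ℝ × ℝ => g (-p.1, p.2)) e (- u y, y) =
        - Fs (fun p => f p + (-σ) * χ p.2.1) g e (u y, y) := by
      simp only [Fs, neg_neg]
      rw [← neg_div]
      congr 1
      ring
    change HasDerivAt _ (Fs (fun p : ℝ × ℝ × ℝ => - f (-p.1, p.2) + σ * χ p.2.1)
        (fun p : ℝ × ℝ × ℝ => g (-p.1, p.2)) e (- u y, y)) y
    rw [e1]
    exact h6
  · have h6 := (hv y).neg
    have e1 : Fs (fun p : ℝ × ℝ × ℝ => - f (-p.1, p.2))
        (fun p : ℝ × ℝ × ℝ => g (-p.1, p.2)) e (- v y, y) = - Fs f g e (v y, y) := by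
      simp only [Fs, neg_neg]
      rw [← neg_div]
    change HasDerivAt _ (Fs (fun p : ℝ × ℝ × ℝ => - f (-p.1, p.2))
        (fun p : ℝ × ℝ × ℝ => g (-p.1, p.2)) e (- v y, y)) y
    rw [e1]
    exact h6

end

end Pool.Agent.R194.GC
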