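import Pool.Agent.R194.GC.Dens

set_option autoImplicit false
open Topology Filter Set

namespace Pool.Agent.R194.GC

noncomputable section

/-- `M_i`, over the arc `[a, b]` of the `y`-circle: a closed curve that is the union of the graphs
`x = m(y)` (attracting, `f_x < 0`) and `x = p(y)` (repelling, `f_x > 0`) of two continuous functions
that agree (modulo `2π`) at the two ends, where there are nondegenerate folds
(`f_x = 0`, `f_xx ≠ 0`, `f_y ≠ 0`). All at `ε = 0`. -/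
structure Oval (f : ℝ × ℝ × ℝ → ℝ) (a b : ℝ) (m p : ℝ → ℝ) : Prop where
  lt : a < b
  contm : ContinuousOn m (Icc a b)
  contp : ContinuousOn p (Icc a b)
  enda : ∃ k : ℤ, p a = m a + k * (2 * Real.pi)
  endb : ∃ k : ℤ, p b = m b + k * (2 * Real.pi)
  zero : ∀ y ∈ Icc a b, ∀ x, f (x, y, 0) = 0 ↔
    ∃ k : ℤ, x = m y + k * (2 * Real.pi) ∨ x = p y + k * (2 * Real.pi)
  att : ∀ y ∈ Ioo a b, deriv (fun x => f (x, y, 0)) (m y) < 0
  rep : ∀ y ∈ Ioo a b, 0 < deriv (fun x => f (x, y, 0)) (p y)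
  folda : deriv (fun x => f (x, a, 0)) (m a) = 0 ∧
    iteratedDeriv 2 (fun x => f (x, a, 0)) (m a) ≠ 0 ∧ deriv (fun y => f (m a, y, 0)) a ≠ 0
  foldb : deriv (fun x => f (x, b, 0)) (m b) = 0 ∧
    iteratedDeriv 2 (fun x => f (x, b, 0)) (m b) ≠ 0 ∧ deriv (fun y => f (m b, y, 0)) b ≠ 0

/-- The slow curve `M = {f(x, y, 0) = 0}` is simple unconnected, with the components `M_i`
(`i = 0, 1`) over the disjoint arcs `[a i, b i]`, with attracting parts `x = m i y` and repelling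
parts `x = p i y`. -/
structure SlowCurve (s : Sys) (a b : Fin 2 → ℝ) (m p : Fin 2 → ℝ → ℝ) : Prop where
  oval : ∀ i, Oval s.f (a i) (b i) (m i) (p i)
  lt₁ : b 0 < a 1
  lt₂ : b 1 < a 0 + 2 * Real.pi
  gap₁ : ∀ y ∈ Ioo (b 0) (a 1), ∀ x, s.f (x, y, 0) ≠ 0
  gap₂ : ∀ y ∈ Ioo (b 1) (a 0 + 2 * Real.pi), ∀ x, s.f (x, y, 0) ≠ 0

/-- The system has a simple unconnected slow curve. -/
def SimpleUnconnected (s : Sys) : Prop :=
  ∃ (a b : Fin 2 → ℝ) (m p : Fin 2 → ℝ → ℝ), SlowCurve s a b m p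

/-- A grand canard at the parameter `e` from the segment `J = [u, v] × {α}` to the segment
`J' = [u', v'] × {β}`: an orbit through a point of `J` whose first subsequent crossing of the circle
`{y = β}` is a point of `J'` (everything modulo `2π`). -/
def GrandCanard (s : Sys) (e α u v β u' v' : ℝ) : Prop :=
  ∃ (x y : ℝ → ℝ) (τ : ℝ), 0 < τ ∧ (∀ t, HasDerivAt x (s.f (x t, y t, e)) t) ∧
    (∀ t, HasDerivAt y (e * s.g (x t, y t, e)) t) ∧
    y 0 = α ∧ x 0 ∈ Icc u v ∧ (∃ n : ℤ, y τ = β + n * (2 * Real.pi)) ∧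
    (∀ t ∈ Ioo 0 τ, ∀ n : ℤ, y t ≠ β + n * (2 * Real.pi)) ∧
    ∃ k : ℤ, x τ + k * (2 * Real.pi) ∈ Icc u' v'

lemma canard_of_sol (s : Sys) {e : ℝ} (he : 0 < e) {X : ℝ → ℝ} (hX : Sol (Fs s.f s.g e) X)
    {α β u v u' v' : ℝ} (n₀ : ℤ) (h1 : α < β + n₀ * (2 * Real.pi))
    (h2 : β + n₀ * (2 * Real.pi) < α + 2 * Real.pi) (hu : X α ∈ Icc u v)
    (hv : ∃ k : ℤ, X (β + n₀ * (2 * Real.pi)) + k * (2 * Real.pi) ∈ Icc u' v') :
    GrandCanard s e α u v β u' v' := by
  have hpi : 0 < 2 * Real.pi := by positivity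
  set β' := β + n₀ * (2 * Real.pi) with hβ'
  -- the field `y' = G(y)`
  have hg : Nice (fun z : ℝ × ℝ => s.g (z.1, z.2, e)) := by
    refine nice_of_contDiff (c := 2 * Real.pi) (s.dat.g1.comp (contDiff_emb e)) hpi ?_ ?_
    · intro x y; simp only [s.g_perx]
    · intro x y; simp only [s.g_pery]
  obtain ⟨Kg, hKg⟩ := hg.lip
  obtain ⟨Mg, hMg⟩ := hg.bdd
  obtain ⟨MF, hMF⟩ := (s.dat.nice he).bdd
  have hXl : LipschitzWith MF.toNNReal X := by
    refine lipschitzWith_of_nnnorm_deriv_le (fun y => (hX y).differentiableAt) fun y => ?_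
    rw [(hX y).deriv, ← NNReal.coe_le_coe, coe_nnnorm]
    exact (hMF _).trans (Real.le_coe_toNNReal _)
  have hGl : LipschitzWith (⟨e, he.le⟩ * (Kg * max MF.toNNReal 1))
      (fun y => e * s.g (X y, y, e)) := by
    have h3 : LipschitzWith (max MF.toNNReal 1) (fun y => (X y, y)) :=
      hXl.prodMk LipschitzWith.id
    have h4 := hKg.comp h3
    refine LipschitzWith.of_dist_le_mul fun y y' => ?_
    have h5 := h4.dist_le_mul y y'
    simp only [Function.comp_apply, Real.dist_eq] at h5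
    rw [Real.dist_eq, ← mul_sub, abs_mul, abs_of_pos he]
    have h6 := mul_le_mul_of_nonneg_left h5 he.le
    have h7 : ((⟨e, he.le⟩ * (Kg * max MF.toNNReal 1) : NNReal) : ℝ) * dist y y' =
        e * (↑(Kg * max MF.toNNReal 1) * |y - y'|) := by
      rw [NNReal.coe_mul, Real.dist_eq]
      exact mul_assoc _ _ _
    rw [h7]
    exact h6
  have hGb : ∀ y, ‖e * s.g (X y, y, e)‖ ≤ ((e * Mg).toNNReal : ℝ) := by
    intro y
    rw [norm_mul, Real.norm_eq_abs, abs_of_pos he]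
    refine le_trans ?_ (Real.le_coe_toNNReal _)
    exact mul_le_mul_of_nonneg_left (hMg (X y, y)) he.le
  obtain ⟨y, hy0, hy⟩ := Pool.Agent.GR.Flow.exists_solution hGl hGb α
  -- lower bound for the speed
  obtain ⟨c, hc, hcG⟩ : ∃ c > 0, ∀ y, c ≤ e * s.g (X y, y, e) := by
    have hd1 : Dat (fun _ => (1:ℝ)) s.g :=
      { f1 := contDiff_const
        g1 := s.dat.g1
        fx := fun _ _ _ => rfl
        fy := fun _ _ _ => rfl
        gx := s.g_perx
        gy := s.g_pery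
        gpos := s.g_pos }
    obtain ⟨M, hM⟩ := (hd1.nice he).bdd
    have hM0 : 0 ≤ M := (abs_nonneg _).trans (hM 0)
    refine ⟨1 / (M + 1), by positivity, fun y => ?_⟩
    have h3 := hM (X y, y)
    have h4 : 0 < e * s.g (X y, y, e) := mul_pos he (s.g_pos _)
    simp only [Fs] at h3
    rw [abs_of_pos (div_pos one_pos h4)] at h3
    rw [div_le_iff₀ (by positivity)]
    rw [div_le_iff₀ h4] at h3
    linarith
  have hmono : StrictMono y := by
    refine strictMono_of_deriv_pos fun t => ?_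
    rw [(hy t).deriv]
    exact hc.trans_le (hcG _)
  have hyc : Continuous y := continuous_iff_continuousAt.2 fun t => (hy t).continuousAt
  have hlow : ∀ t, 0 ≤ t → α + c * t ≤ y t := by
    intro t ht
    have h3 := mono_of_hasDeriv (a := 0) (b := t) (D := fun t => y t - c * t)
      (D' := fun t => e * s.g (X (y t), y t, e) - c) ht
      (fun t => by
        have h4 : HasDerivAt (fun t : ℝ => c * t) c t := by
          simpa using (hasDerivAt_id t).const_mul c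
        exact (hy t).sub h4)
      (fun t _ => by linarith [hcG (y t)])
    simp only [hy0, mul_zero, sub_zero] at h3
    linarith
  obtain ⟨τ, hτm, hτ⟩ : ∃ τ ∈ Icc 0 ((β' - α) / c), y τ = β' := by
    have h3 : (0:ℝ) ≤ (β' - α) / c := div_nonneg (by linarith) hc.le
    have h4 := intermediate_value_Icc h3 hyc.continuousOn
    refine h4 ⟨by rw [hy0]; exact h1.le, ?_⟩
    have h5 := hlow _ h3
    rw [mul_div_cancel₀ _ hc.ne'] at h5
    linarith
  have hτ0 : 0 < τ := by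
    rcases hτm.1.lt_or_eq with h | h
    · exact h
    · rw [← h, hy0] at hτ
      linarith
  refine ⟨fun t => X (y t), y, τ, hτ0, fun t => ?_, hy, hy0, ?_, ⟨n₀, hτ⟩, ?_, ?_⟩
  · have h3 := (hX (y t)).comp t (hy t)
    have h4 : Fs s.f s.g e (X (y t), y t) * (e * s.g (X (y t), y t, e)) =
        s.f (X (y t), y t, e) := by
      simp only [Fs]
      have := (mul_pos he (s.g_pos (X (y t), y t, e))).ne'
      exact div_mul_cancel₀ _ this
    rw [h4] at h3
    exact h3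
  · simp only [hy0]; exact hu
  · intro t ht n hn
    have h3 := hmono ht.1
    have h4 := hmono ht.2
    rw [hy0, hn] at h3
    rw [hn, hτ, hβ'] at h4
    have h5 : (n:ℝ) * (2 * Real.pi) < n₀ * (2 * Real.pi) := by linarith
    have h6 : (n:ℝ) < n₀ := lt_of_mul_lt_mul_right h5 hpi.le
    have h7 : n + 1 ≤ n₀ := by exact_mod_cast h6
    have h8 : (n:ℝ) + 1 ≤ n₀ := by exact_mod_cast h7
    have h9 := mul_le_mul_of_nonneg_right h8 hpi.le
    have h10 : ((n:ℝ) + 1) * (2 * Real.pi) = n * (2 * Real.pi) + 2 * Real.pi := by ring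
    linarith
  · simp only [hτ]; exact hv

/-- strips around an attracting zero are forward invariant -/
lemma att_sec {f g : ℝ × ℝ × ℝ → ℝ} (hd : Dat f g) {c y₀ u v : ℝ} (hc : c ∈ Ioo u v)
    (h0 : f (c, y₀, 0) = 0) (hder : deriv (fun x => f (x, y₀, 0)) c < 0) :
    ∃ ρ > 0, ∃ u₁ v₁ : ℚ, (u₁ : ℝ) < v₁ ∧ ∀ e ∈ Ioo 0 ρ, ∀ y' ∈ Ioo (y₀ - ρ) y₀,
      ∀ X, Sol (Fs f g e) X → X y' ∈ Ioo (u₁ : ℝ) v₁ → X y₀ ∈ Icc u v := by
  have h1 := eventually_nhdsWithin_sign_eq_of_deriv_neg hder h0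
  obtain ⟨η, hη, h2⟩ := Metric.eventually_nhds_iff_ball.1
    (h1.and (Ioo_mem_nhds hc.1 hc.2))
  have hη2 : 0 < η / 2 := half_pos hη
  have m1 : c + η / 2 ∈ Metric.ball c η := by
    rw [Metric.mem_ball, Real.dist_eq, add_sub_cancel_left, abs_of_pos hη2]
    linarith
  have m2 : c - η / 2 ∈ Metric.ball c η := by
    rw [Metric.mem_ball, Real.dist_eq, sub_sub_cancel_left, abs_neg, abs_of_pos hη2]
    linarith
  have a1 : f (c + η / 2, y₀, 0) < 0 := by
    have h3 := (h2 _ m1).1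
    have h4 : c - (c + η / 2) < 0 := by linarith
    rw [sign_neg h4] at h3
    exact sign_eq_neg_one_iff.1 h3
  have a2 : 0 < f (c - η / 2, y₀, 0) := by
    have h3 := (h2 _ m2).1
    have h4 : 0 < c - (c - η / 2) := by linarith
    rw [sign_pos h4] at h3
    exact sign_eq_one_iff.1 h3
  have b1 := (h2 _ m1).2
  have b2 := (h2 _ m2).2
  have hev : ∀ᶠ q : ℝ × ℝ in 𝓝 (y₀, 0), f (c + η / 2, q) < 0 ∧ 0 < f (c - η / 2, q) := by
    have c1 : Continuous (fun q : ℝ × ℝ => f (c + η / 2, q)) := hd.f1.continuous.comp (by fun_prop)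
    have c2 : Continuous (fun q : ℝ × ℝ => f (c - η / 2, q)) := hd.f1.continuous.comp (by fun_prop)
    exact (c1.continuousAt.eventually (gt_mem_nhds a1)).and
      (c2.continuousAt.eventually (lt_mem_nhds a2))
  obtain ⟨ρ, hρ, h3⟩ := Metric.eventually_nhds_iff_ball.1 hev
  obtain ⟨u₁, hu1, hu2⟩ := exists_rat_btwn (show c - η / 2 < c by linarith)
  obtain ⟨v₁, hv1, hv2⟩ := exists_rat_btwn (show c < c + η / 2 by linarith)
  refine ⟨ρ, hρ, u₁, v₁, hu2.trans hv1, fun e he y' hy' X hX hXy => ?_⟩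
  have hF : ∀ y ∈ Icc y' y₀, f (c + η / 2, y, e) < 0 ∧ 0 < f (c - η / 2, y, e) := by
    intro y hy
    apply h3 (y, e)
    rw [Metric.mem_ball, Prod.dist_eq, max_lt_iff]
    simp only [Real.dist_eq, sub_zero]
    rw [abs_of_pos he.1, abs_lt]
    exact ⟨⟨by linarith [hy'.1, hy.1], by linarith [hy.2]⟩, he.2⟩
  have t1 := trap_le hX hy'.2.le (c := c + η / 2) (by linarith [hXy.2]) (fun y hy =>
    div_neg_of_neg_of_pos (hF y hy).1 (mul_pos he.1 (hd.gpos _)))
  have t2 := trap_ge hX hy'.2.le (c := c - η / 2) (by linarith [hXy.1]) (fun y hy =>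
    div_pos (hF y hy).2 (mul_pos he.1 (hd.gpos _)))
  exact ⟨by linarith [b2.1], by linarith [b1.2]⟩

/-- strips around a repelling zero are backward invariant -/
lemma rep_sec {f g : ℝ × ℝ × ℝ → ℝ} (hd : Dat f g) {c y₀ u v : ℝ} (hc : c ∈ Ioo u v)
    (h0 : f (c, y₀, 0) = 0) (hder : 0 < deriv (fun x => f (x, y₀, 0)) c) :
    ∃ ρ > 0, ∃ u₁ v₁ : ℚ, (u₁ : ℝ) < v₁ ∧ ∀ e ∈ Ioo 0 ρ, ∀ y' ∈ Ioo y₀ (y₀ + ρ),
      ∀ X, Sol (Fs f g e) X → X y' ∈ Ioo (u₁ : ℝ) v₁ → X y₀ ∈ Icc u v := by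
  have h1 := eventually_nhdsWithin_sign_eq_of_deriv_pos hder h0
  obtain ⟨η, hη, h2⟩ := Metric.eventually_nhds_iff_ball.1
    (h1.and (Ioo_mem_nhds hc.1 hc.2))
  have hη2 : 0 < η / 2 := half_pos hη
  have m1 : c + η / 2 ∈ Metric.ball c η := by
    rw [Metric.mem_ball, Real.dist_eq, add_sub_cancel_left, abs_of_pos hη2]
    linarith
  have m2 : c - η / 2 ∈ Metric.ball c η := by
    rw [Metric.mem_ball, Real.dist_eq, sub_sub_cancel_left, abs_neg, abs_of_pos hη2]
    linarith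
  have a1 : 0 < f (c + η / 2, y₀, 0) := by
    have h3 := (h2 _ m1).1
    have h4 : 0 < c + η / 2 - c := by linarith
    rw [sign_pos h4] at h3
    exact sign_eq_one_iff.1 h3
  have a2 : f (c - η / 2, y₀, 0) < 0 := by
    have h3 := (h2 _ m2).1
    have h4 : c - η / 2 - c < 0 := by linarith
    rw [sign_neg h4] at h3
    exact sign_eq_neg_one_iff.1 h3
  have b1 := (h2 _ m1).2
  have b2 := (h2 _ m2).2
  have hev : ∀ᶠ q : ℝ × ℝ in 𝓝 (y₀, 0), 0 < f (c + η / 2, q) ∧ f (c - η / 2, q) < 0 := by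
    have c1 : Continuous (fun q : ℝ × ℝ => f (c + η / 2, q)) := hd.f1.continuous.comp (by fun_prop)
    have c2 : Continuous (fun q : ℝ × ℝ => f (c - η / 2, q)) := hd.f1.continuous.comp (by fun_prop)
    exact (c1.continuousAt.eventually (lt_mem_nhds a1)).and
      (c2.continuousAt.eventually (gt_mem_nhds a2))
  obtain ⟨ρ, hρ, h3⟩ := Metric.eventually_nhds_iff_ball.1 hev
  obtain ⟨u₁, hu1, hu2⟩ := exists_rat_btwn (show c - η / 2 < c by linarith)
  obtain ⟨v₁, hv1, hv2⟩ := exists_rat_btwn (show c < c + η / 2 by linarith)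
  refine ⟨ρ, hρ, u₁, v₁, hu2.trans hv1, fun e he y' hy' X hX hXy => ?_⟩
  have hF : ∀ y ∈ Icc y₀ y', 0 < f (c + η / 2, y, e) ∧ f (c - η / 2, y, e) < 0 := by
    intro y hy
    apply h3 (y, e)
    rw [Metric.mem_ball, Prod.dist_eq, max_lt_iff]
    simp only [Real.dist_eq, sub_zero]
    rw [abs_of_pos he.1, abs_lt]
    exact ⟨⟨by linarith [hy.1], by linarith [hy'.2, hy.2]⟩, he.2⟩
  have t1 : X y₀ ≤ c + η / 2 := by
    by_contra hcon
    push Not at hcon
    have := trap_ge hX hy'.1.le (c := c + η / 2) hcon.le (fun y hy =>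
      div_pos (hF y hy).1 (mul_pos he.1 (hd.gpos _)))
    linarith [hXy.2]
  have t2 : c - η / 2 ≤ X y₀ := by
    by_contra hcon
    push Not at hcon
    have := trap_le hX hy'.1.le (c := c - η / 2) hcon.le (fun y hy =>
      div_neg_of_neg_of_pos (hF y hy).2 (mul_pos he.1 (hd.gpos _)))
    linarith [hXy.1]
  exact ⟨by linarith [b2.1], by linarith [b1.2]⟩

end

end Pool.Agent.R194.GC
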