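import Pool.Agent.R194.GC.Push

set_option autoImplicit false
open Topology Filter Set

namespace Pool.Agent.R194.GC

noncomputable section

/-- A slow-fast system on the two-torus: `x' = f(x, y, ε)`, `y' = ε g(x, y, ε)` with smooth
functions `f`, `g` of `(x, y, ε)`, `2π`-periodic in `x` and in `y`, and `g > 0`. -/
structure Sys where
  f : ℝ × ℝ × ℝ → ℝ
  g : ℝ × ℝ × ℝ → ℝ
  f_smooth : ContDiff ℝ (⊤ : ℕ∞) f
  g_smooth : ContDiff ℝ (⊤ : ℕ∞) g
  f_perx : ∀ x y e, f (x + 2 * Real.pi, y, e) = f (x, y, e)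
  f_pery : ∀ x y e, f (x, y + 2 * Real.pi, e) = f (x, y, e)
  g_perx : ∀ x y e, g (x + 2 * Real.pi, y, e) = g (x, y, e)
  g_pery : ∀ x y e, g (x, y + 2 * Real.pi, e) = g (x, y, e)
  g_pos : ∀ p, 0 < g p

/-- the `j`-th derivative of a smooth function as a continuous function -/
def jet (h : ℝ × ℝ × ℝ → ℝ) (hh : ContDiff ℝ (⊤ : ℕ∞) h) (j : ℕ) :
    C(ℝ × ℝ × ℝ, (ℝ × ℝ × ℝ) [×j]→L[ℝ] ℝ) :=
  ⟨iteratedFDeriv ℝ j h, hh.continuous_iteratedFDeriv (by exact_mod_cast le_top)⟩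

/-- the derivatives of all orders of the two components of a system -/
def Sys.jets (s : Sys) (j : ℕ) : C(ℝ × ℝ × ℝ, (ℝ × ℝ × ℝ) [×j]→L[ℝ] ℝ) ×
    C(ℝ × ℝ × ℝ, (ℝ × ℝ × ℝ) [×j]→L[ℝ] ℝ) := (jet s.f s.f_smooth j, jet s.g s.g_smooth j)

/-- The `C^∞` topology on the space of systems: uniform convergence of `f`, `g` and all their
derivatives on compact sets of `(x, y, ε)` (the topology induced by the map to the derivatives of
all orders, with the compact-open topologies). -/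
instance : TopologicalSpace Sys := TopologicalSpace.induced Sys.jets inferInstance

lemma cont_jets (j : ℕ) : Continuous (fun s : Sys => s.jets j) := by
  have h1 : Continuous Sys.jets := continuous_induced_dom
  exact continuous_pi_iff.1 h1 j

lemma cont_df (j : ℕ) :
    Continuous (fun q : Sys × (ℝ × ℝ × ℝ) => iteratedFDeriv ℝ j q.1.f q.2) := by
  have h1 : Continuous (fun q : Sys × (ℝ × ℝ × ℝ) => ((q.1.jets j).1, q.2)) :=
    (continuous_fst.comp ((cont_jets j).comp continuous_fst)).prodMk continuous_snd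
  exact (continuous_eval (F := C(ℝ × ℝ × ℝ, (ℝ × ℝ × ℝ) [×j]→L[ℝ] ℝ))).comp h1

lemma cont_dg (j : ℕ) :
    Continuous (fun q : Sys × (ℝ × ℝ × ℝ) => iteratedFDeriv ℝ j q.1.g q.2) := by
  have h1 : Continuous (fun q : Sys × (ℝ × ℝ × ℝ) => ((q.1.jets j).2, q.2)) :=
    (continuous_snd.comp ((cont_jets j).comp continuous_fst)).prodMk continuous_snd
  exact (continuous_eval (F := C(ℝ × ℝ × ℝ, (ℝ × ℝ × ℝ) [×j]→L[ℝ] ℝ))).comp h1

lemma cont_f : Continuous (fun q : Sys × (ℝ × ℝ × ℝ) => q.1.f q.2) := by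
  have h1 : (fun q : Sys × (ℝ × ℝ × ℝ) => q.1.f q.2) =
      fun q => iteratedFDeriv ℝ 0 q.1.f q.2 0 := by
    funext q; rw [iteratedFDeriv_zero_apply]
  rw [h1]
  exact (ContinuousMultilinearMap.apply ℝ (fun _ : Fin 0 => ℝ × ℝ × ℝ) ℝ 0).continuous.comp
    (cont_df 0)

lemma cont_g : Continuous (fun q : Sys × (ℝ × ℝ × ℝ) => q.1.g q.2) := by
  have h1 : (fun q : Sys × (ℝ × ℝ × ℝ) => q.1.g q.2) =
      fun q => iteratedFDeriv ℝ 0 q.1.g q.2 0 := by
    funext q; rw [iteratedFDeriv_zero_apply]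
  rw [h1]
  exact (ContinuousMultilinearMap.apply ℝ (fun _ : Fin 0 => ℝ × ℝ × ℝ) ℝ 0).continuous.comp
    (cont_dg 0)

lemma Sys.dat (s : Sys) : Dat s.f s.g where
  f1 := s.f_smooth.of_le (by exact_mod_cast le_top)
  g1 := s.g_smooth.of_le (by exact_mod_cast le_top)
  fx := s.f_perx
  fy := s.f_pery
  gx := s.g_perx
  gy := s.g_pery
  gpos := s.g_pos

/-- smooth periodic functions of `y` -/
structure SmP (χ : ℝ → ℝ) : Prop where
  smooth : ContDiff ℝ (⊤ : ℕ∞) χ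
  per : ∀ y, χ (y + 2 * Real.pi) = χ y

lemma SmP.lift {χ : ℝ → ℝ} (h : SmP χ) :
    ContDiff ℝ (⊤ : ℕ∞) (fun p : ℝ × ℝ × ℝ => χ p.2.1) :=
  h.smooth.comp (contDiff_fst.comp contDiff_snd)

/-- a system, perturbed by functions of `y` -/
def Sys.pert (s : Sys) {χ₁ χ₂ : ℝ → ℝ} (h₁ : SmP χ₁) (h₂ : SmP χ₂) (σ : ℝ × ℝ) : Sys where
  f := fun p => s.f p + σ.1 * χ₁ p.2.1 + σ.2 * χ₂ p.2.1
  g := s.g
  f_smooth := (s.f_smooth.add (contDiff_const.mul h₁.lift)).add (contDiff_const.mul h₂.lift)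
  g_smooth := s.g_smooth
  f_perx := fun x y e => by simp only [s.f_perx]
  f_pery := fun x y e => by simp only [s.f_pery, h₁.per, h₂.per]
  g_perx := s.g_perx
  g_pery := s.g_pery
  g_pos := s.g_pos

lemma Sys.pert_zero (s : Sys) {χ₁ χ₂ : ℝ → ℝ} (h₁ : SmP χ₁) (h₂ : SmP χ₂) :
    s.pert h₁ h₂ (0, 0) = s := by
  cases s
  simp [Sys.pert]

lemma continuous_pert (s : Sys) {χ₁ χ₂ : ℝ → ℝ} (h₁ : SmP χ₁) (h₂ : SmP χ₂) :
    Continuous (fun σ => s.pert h₁ h₂ σ) := by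
  refine continuous_induced_rng.2 (continuous_pi fun j => ?_)
  refine Continuous.prodMk ?_ (continuous_const (y := jet s.g s.g_smooth j))
  have he : (fun σ : ℝ × ℝ => jet (s.pert h₁ h₂ σ).f (s.pert h₁ h₂ σ).f_smooth j) =
      fun σ => jet s.f s.f_smooth j + σ.1 • jet _ h₁.lift j + σ.2 • jet _ h₂.lift j := by
    funext σ
    ext1 z
    change iteratedFDeriv ℝ j (fun p : ℝ × ℝ × ℝ => s.f p + σ.1 * χ₁ p.2.1 + σ.2 * χ₂ p.2.1) z =
      iteratedFDeriv ℝ j s.f z + σ.1 • iteratedFDeriv ℝ j (fun p : ℝ × ℝ × ℝ => χ₁ p.2.1) z +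
        σ.2 • iteratedFDeriv ℝ j (fun p : ℝ × ℝ × ℝ => χ₂ p.2.1) z
    have c0 : ContDiff ℝ j s.f := s.f_smooth.of_le (by exact_mod_cast le_top)
    have c1 : ContDiff ℝ j (fun p : ℝ × ℝ × ℝ => χ₁ p.2.1) :=
      h₁.lift.of_le (by exact_mod_cast le_top)
    have c2 : ContDiff ℝ j (fun p : ℝ × ℝ × ℝ => χ₂ p.2.1) :=
      h₂.lift.of_le (by exact_mod_cast le_top)
    have k1 : ContDiff ℝ j (fun p : ℝ × ℝ × ℝ => σ.1 • χ₁ p.2.1) := c1.const_smul _
    have k2 : ContDiff ℝ j (fun p : ℝ × ℝ × ℝ => σ.2 • χ₂ p.2.1) := c2.const_smul _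
    have e1 := fun_iteratedFDeriv_add_apply (x := z) (c0.add k1).contDiffAt k2.contDiffAt
    have e2 := fun_iteratedFDeriv_add_apply (x := z) c0.contDiffAt k1.contDiffAt
    have e3 := iteratedFDeriv_const_smul_apply' (a := σ.1) (x := z) c1.contDiffAt
    have e4 := iteratedFDeriv_const_smul_apply' (a := σ.2) (x := z) c2.contDiffAt
    rw [e2, e3, e4] at e1
    exact e1
  change Continuous (fun σ : ℝ × ℝ => jet (s.pert h₁ h₂ σ).f (s.pert h₁ h₂ σ).f_smooth j)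
  rw [he]
  exact (continuous_const.add (continuous_fst.smul continuous_const)).add
    (continuous_snd.smul continuous_const)

end

end Pool.Agent.R194.GC
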